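import Pool.Agent.MP_13199e_lc.PP.D.Spec

/-! PROJECT PP, block D, rows UNI, G1A, G1B: the algebra of the clouds. -/

set_option autoImplicit false
set_option linter.unusedSectionVars false
set_option linter.unusedSimpArgs false

namespace Pool.Agent.PP.D

namespace Alg

variable {F : Type} [Field F]

theorem shift' [Finite F] {α : Type} [AddGroup α] [Finite α] (p : α → F) (v : F → α) (c : F)
    (hc : c ≠ 0) (h : ∀ τ s, p (τ + v s) = p τ + c * s) :
    pr (fun τ => p τ = 0) ≤ 1 / Nat.card F := by
  refine (av_av_shift (fun τ => ind (p τ = 0)) v).symm.trans_le (av_le fun τ => ?_)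
  refine pr_le_inv (p := fun s : F => p (τ + v s) = 0) fun a b ha hb => ?_
  rw [h] at ha hb
  exact mul_left_cancel₀ hc (add_left_cancel (ha.trans hb.symm))

theorem shift [Finite F] (w : Fin 6 → F) (k : Fin 7) (c : F) (hc : c ≠ 0)
    (h : ∀ (τ : TT F) (s : F), ∑ i, w i * uu (τ + Pi.single k s) i = ∑ i, w i * uu τ i + c * s) :
    pr (fun τ : TT F => ∑ i, w i * uu τ i = 0) ≤ 1 / Nat.card F :=
  shift' (fun τ : TT F => ∑ i, w i * uu τ i) (fun s => Pi.single k s) c hc h

theorem ext6 {α : Type} {x y : Fin 6 → α} (h0 : x 0 = y 0) (h1 : x 1 = y 1) (h2 : x 2 = y 2)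
    (h3 : x 3 = y 3) (h4 : x 4 = y 4) (h5 : x 5 = y 5) : x = y := by
  funext i
  fin_cases i <;> assumption

variable {A : Type} [AddCommGroup A] [Module F A] (t : A →ₗ[F] A) (o : A)

section
variable (M : VV F) (h : BB F) (x : Fin 6 → A)

theorem act0 : act t o M h x 0 = x 0 + (el t o M x (h 0) + t (el t o M x (h 1))) := rfl
theorem act1 : act t o M h x 1 = x 1 + el t o M x (h 2) := rfl
theorem act2 : act t o M h x 2 = x 2 + el t o M x (h 3) := rfl
theorem act3 : act t o M h x 3 =
  x 3 + (M 0 0 • el t o M x (h 2) + M 1 0 • el t o M x (h 3)) := rfl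
theorem act4 : act t o M h x 4 =
  x 4 + (M 0 1 • el t o M x (h 2) + M 1 1 • el t o M x (h 3)) := rfl
theorem act5 : act t o M h x 5 =
  x 5 + (M 0 2 • el t o M x (h 2) + M 1 2 • el t o M x (h 3)) := rfl

theorem ph0 : ph M x 0 = x 3 - M 0 0 • x 1 - M 1 0 • x 2 := rfl
theorem ph1 : ph M x 1 = x 4 - M 0 1 • x 1 - M 1 1 • x 2 := rfl
theorem ph2 : ph M x 2 = x 5 - M 0 2 • x 1 - M 1 2 • x 2 := rfl

theorem el_congr {x y : Fin 6 → A} (h0 : ph M x 0 = ph M y 0) (h1 : ph M x 1 = ph M y 1)
    (h2 : ph M x 2 = ph M y 2) : el t o M x = el t o M y := by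
  funext c
  simp only [el, h0, h1, h2]

theorem el_act : el t o M (act t o M h x) = el t o M x := by
  apply el_congr <;> simp only [ph0, ph1, ph2, act1, act2, act3, act4, act5] <;> module

theorem el_add (c c' : Fin 4 → F) :
    el t o M x (c + c') = el t o M x c + el t o M x c' := by
  simp only [el, Pi.add_apply, add_smul, map_add]
  abel

theorem el_smul (b : F) (c : Fin 4 → F) : el t o M x (b • c) = b • el t o M x c := by
  simp only [el, Pi.smul_apply, smul_eq_mul, mul_smul, map_add, map_smul, smul_add]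

theorem el_zero : el t o M x 0 = 0 := by simp [el]

end

end Alg

open Alg

theorem uniS : UniS := by
  intro F _ _
  refine ⟨fun τ => ⟨?_, fun h => ?_⟩, fun w hw => ?_⟩
  · simp [Fin.sum_univ_six, ff, uu]
    ring
  · simpa [ff] using congrFun h 5
  by_cases h0 : w 0 = 0
  swap
  · exact shift w 0 _ h0 fun τ s => by simp [Fin.sum_univ_six, uu]; ring
  by_cases h2 : w 2 = 0
  swap
  · exact shift w 1 _ h2 fun τ s => by simp [Fin.sum_univ_six, uu]; ring
  by_cases h3 : w 3 = 0
  swap
  · exact shift w 2 _ h3 fun τ s => by simp [Fin.sum_univ_six, uu]; ring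
  by_cases h4 : w 4 = 0
  swap
  · exact shift w 3 _ h4 fun τ s => by simp [Fin.sum_univ_six, uu]; ring
  by_cases h5 : w 5 = 0
  swap
  · exact shift w 4 _ h5 fun τ s => by simp [Fin.sum_univ_six, uu]; ring
  rw [pr_of_not fun τ h => hw ?_]
  · positivity
  · have h1 : w 1 = 0 := by simpa [Fin.sum_univ_six, uu, h0, h2, h3, h4, h5] using h
    exact ext6 h0 h1 h2 h3 h4 h5

theorem g1aS : G1aS := by
  intro F A _ _ _ t o M x
  refine ⟨?_, fun h h' => ?_, fun c a => ?_⟩
  · apply ext6 <;> simp [act0, act1, act2, act3, act4, act5, el_zero]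
  · apply ext6 <;>
      simp only [act0, act1, act2, act3, act4, act5, el_act, Pi.add_apply, el_add, map_add] <;>
      module
  · apply ext6 <;>
      simp [act0, act1, act2, act3, act4, act5, el, ph0, ph1, ph2, sub, uu, ff, ee, emb,
        Fin.sum_univ_six] <;> module

theorem g1bS : G1bS := by
  intro F A _ _ _ t o m x
  refine ⟨?_, fun M h => ?_, fun τ a => ?_⟩
  · rcases m with ⟨e, b⟩ | b | s
    · rfl
    · rfl
    · fin_cases s
      · exact funext fun a => congrArg x (sg_sg 0 a)
      · rfl
      · exact funext fun a => congrArg x (sg_sg 2 a)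
      · rfl
      · rfl
  · rcases m with ⟨e, b⟩ | b | s
    · have k : el t o M (mv t o (.lin e b) x) = el t o M x := by
        apply el_congr <;> simp [ph0, ph1, ph2, mv]
      show mv t o (.lin e b) _ = act t o M (LL (.lin e b) h) (mv t o (.lin e b) x)
      cases e <;> apply ext6 <;>
        simp only [act0, act1, act2, act3, act4, act5, k] <;>
        simp [act0, act1, act2, act3, act4, act5, mv, LL, el_add, el_smul] <;> module
    · have k : el t o M (mv t o (.tr b) x) = el t o M x := by
        apply el_congr <;> simp [ph0, ph1, ph2, mv]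
      show mv t o (.tr b) _ = act t o M h (mv t o (.tr b) x)
      apply ext6 <;>
        simp only [act0, act1, act2, act3, act4, act5, k] <;>
        simp [act0, act1, act2, act3, act4, act5, mv] <;> module
    · fin_cases s
      · show (fun a => act t o M h x (sg 0 (sg 0 a))) = act t o M h fun a => x (sg 0 (sg 0 a))
        simp only [sg_sg]
      · apply ext6 <;> simp [act0, act1, act2, act3, act4, act5, el, ph0, ph1, ph2, mv, pw, mu, LL,
          sg, rix_apply, Equiv.swap_apply_def] <;> module
      · show (fun a => act t o M h x (sg 2 (sg 2 a))) = act t o M h fun a => x (sg 2 (sg 2 a))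
        simp only [sg_sg]
      · apply ext6 <;> simp [act0, act1, act2, act3, act4, act5, el, ph0, ph1, ph2, mv, pw, mu, LL,
          sg, rix_apply, Equiv.swap_apply_def] <;> module
      · apply ext6 <;> simp [act0, act1, act2, act3, act4, act5, el, ph0, ph1, ph2, mv, pw, mu, LL,
          sg, rix_apply, Equiv.swap_apply_def] <;> module
  · rcases m with ⟨e, b⟩ | b | s
    · rfl
    · rfl
    · fin_cases s
      · apply ext6 <;> simp [sub, uu, ff, mv, pw, pT, sg, rix_apply, Equiv.swap_apply_def,
          Fin.sum_univ_six] <;> module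
      · rfl
      · apply ext6 <;> simp [sub, uu, ff, mv, pw, pT, sg, rix_apply, Equiv.swap_apply_def,
          Fin.sum_univ_six] <;> module
      · rfl
      · rfl

end Pool.Agent.PP.D
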