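import Pool.Agent.MP_13199e_lc.PP.D.Spec

/-! PROJECT PP, block D: the assembly of the rows. -/

set_option autoImplicit false
set_option linter.unusedSectionVars false

namespace Pool.Agent.PP.D

open Function

theorem Spc.conj {U H Z : Type} {σ σ' : U → H → Z → Z} {lam : ℝ} (h : Spc σ' lam) (e : Z ≃ Z)
    (he : ∀ u a x, e (σ u a x) = σ' u a (e x)) : Spc σ lam := fun f hf => by
  have := h (fun x => f (e.symm x)) ((av_equiv e.symm f).trans hf)
  rw [← av_equiv e fun x => f (e.symm x) ^ 2] at this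
  simp only [e.symm_apply_apply] at this
  refine le_of_eq_of_le (av_congr fun u => ?_) this
  rw [← av_equiv e fun x => f (e.symm x) * av fun a => f (e.symm (σ' u a x))]
  simp only [← he, e.symm_apply_apply]

theorem chi_of {F : Type} [Field F] {r : ℕ} (e : F ≃+ Bv r) (s : Fin r) :
    Chi fun x : F => if e x s = 0 then (1 : ℝ) else -1 := by
  have z : ∀ a : ZMod 2, a = 0 ∨ a = 1 := by decide
  refine ⟨fun x y => ?_, fun x => by split_ifs <;> norm_num, e.symm (Pi.single s 1), ?_⟩
  · rw [map_add, Pi.add_apply]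
    rcases z (e x s) with a | a <;> rcases z (e y s) with b | b <;>
      simp [a, b, show (1 + 1 : ZMod 2) = 0 from rfl]
  · simp only [e.apply_symm_apply, Pi.single_eq_same, one_ne_zero, if_false]
    norm_num

variable {F : Type} [Field F]

/-- The projection to the leaves. -/
def roo (m : Mv F) (c : CC F) : BB F →+ (al F).ker :=
  ((AddMonoidHom.id _ - (emb c).comp (al F)).comp (LL m).toAddMonoidHom).codRestrict _
    fun h => by simp [AddMonoidHom.mem_ker]

theorem roo_val (m : Mv F) (c : CC F) (h : BB F) :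
    (roo m c h : BB F) = LL m h - emb c (al F (LL m h)) := rfl

theorem pw_len (m : Mv F) : (pw m).length ≤ 1 := by unfold pw; split <;> simp

/-- The clouds. -/
def pgeo (r : ℕ) (wa : VV F → BB F → List (Mv F)) (hl : ∀ M h, (wa M h).length ≤ 900)
    (hk : ∀ (m : Mv F) (f : VV F → ℝ), (∀ M, 0 ≤ f M ∧ f M ≤ 1) →
      av (fun M => (av (fun u => f (tw m (M, u)).1) - av f) ^ 2) ≤ 2 / 2 ^ r) :
    PGeo r (VV F) (CC F) (NN F) (BB F) (al F).ker (Mv F) where
  tw := tw
  A m u := (emb (tw m u).2.1).comp ((al F).comp (LL m).toAddMonoidHom)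
  ro := roo
  wa := wa
  wc m M ρ := m :: (pw m ++ (wa (mu m M) ρ ++ pw m))
  la M h := (hl M h).trans (by norm_num)
  lc m M ρ := by
    have := pw_len m
    have := hl (mu m M) ρ
    simp only [List.length_cons, List.length_append]
    omega
  link := hk

theorem pgeo_ok (h3 : G3S) (hu : UniS) (hg : GainS) (ha : G1aS) (hb : G1bS) [Finite F] [CharP F 2]
    {r : ℕ} (hq : Nat.card F = 2 ^ r) {ψ : F → ℝ} (hψ : Chi ψ) {wa : VV F → BB F → List (Mv F)}
    (hl) (hk) {A : Type} [AddCommGroup A] [Module F A] [Finite A] (t : A →ₗ[F] A) (o : A)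
    (hc : Cyc t o) (hw : ∀ M h x, run (mv t o) (wa M h) x = act t o M h x) :
    (pgeo r wa hl hk).Ok (mv t o) := by
  refine ⟨fun M z => (hw _ _ _).trans (ha F A t o M z).1, fun M h h' z => ?_,
    fun m ⟨M, c, N⟩ h z => ?_, fun m D g η d g0 g2 η0 hD hd hη => ?_⟩
  · simp only [pgeo, hw, (ha F A t o M z).2.1]
  · simp only [pgeo, run_cons, run_append, hw, roo_val, AddMonoidHom.comp_apply, tw_apply]
    rw [(ha F A t o _ _).2.2, Prod.mk.eta, Equiv.apply_symm_apply, ← (hb F A t o m _).2.2,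
      ← (ha F A t o _ _).2.2, ← (ha F A t o _ _).2.1, AddEquiv.coe_toAddMonoidHom, add_sub_cancel,
      ← (hb F A t o m _).2.1, (hb F A t o m _).1]
  · have q : max g 1 ^ 2 ≤ (Nat.card F : ℝ) := by
      rw [hq]
      rcases le_total g 1 with u | u
      · rw [max_eq_right u, one_pow]
        exact_mod_cast Nat.one_le_two_pow
      · rw [max_eq_left u]
        exact_mod_cast g2
    have s := h3 F A (VV F × CC F) t o ψ (fun p => uu (ee F (mu m p.1, p.2)).1)
      (fun p => ff (ee F (mu m p.1, p.2)).1) (max g 1) hψ hc (fun p => ((hu F).1 _).1)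
      (fun p => ((hu F).1 _).2) (fun w w0 => by
        have := pr_equiv (((mu m).prodCongr (.refl (CC F))).trans (ee F))
          fun p => ∑ i, w i * uu p.1 i = 0
        rw [pr_fst (β := NN F) fun τ : TT F => ∑ i, w i * uu τ i = 0] at this
        exact this.trans_le ((hu F).2 w w0)) (le_max_right _ _) q
    have d0 : 0 ≤ d := (av_nonneg fun u => (hD _ _ _ _).1).trans hd
    have := hg (Fin 6 → A) (VV F × CC F) (BB F) (F × F) (al F).ker (fun u => act t o u.1)
      (fun u => roo m u.2) (fun u => (LL m).symm.toAddMonoidHom.comp (emb u.2)) (3 / max g 1) η d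
      (fun z u ρ => D z u.1 u.2 ρ) (fun u z => (ha F A t o _ z).1)
      (fun u a b z => (ha F A t o _ z).2.1 a b)
      (fun u ρ => ⟨(LL m).symm ρ, Subtype.ext (by
        rw [roo_val, AddEquiv.apply_symm_apply, ρ.2, map_zero, sub_zero])⟩)
      (fun u a => Subtype.ext (by simp [roo_val])) (by positivity)
      (s.conj ⟨fun x => run (mv t o) (pw m) (mv t o m x), fun x => mv t o m (run (mv t o) (pw m) x),
        fun x => by simp only [(hb F A t o m _).1, mv_mv],
        fun x => by simp only [(hb F A t o m _).1, mv_mv]⟩ fun u a x => by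
          simp [(hb F A t o m _).2.1, (ha F A t o _ _).2.2]) η0 (fun _ _ _ => hD _ _ _ _)
      ((av_equiv ((Equiv.refl _).prodCongr (Equiv.prodAssoc _ _ _)) _).trans_le hd) hη
    refine le_trans (le_of_eq (pr_congr fun v => ?_)) (this.trans ?_)
    · rw [← av_equiv (Equiv.prodAssoc _ _ _)]
      simp only [pgeo, hw, Equiv.prodAssoc_apply]
    · rw [show 12 * d / (g * η ^ 2) = 4 * (3 / g) * d / η ^ 2 by field_simp; ring]
      gcongr
      exact le_max_left _ _

theorem geo_of (hk : LinkS) (h3 : G3S) (hu : UniS) (hg : GainS) (ha : G1aS) (hb : G1bS)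
    (hw : WordS) (hc : CycS) (ht : TreeS) (hl : LpS) (h5 : R5S) (hm : CemS) (he : LetS)
    (tg : TrgS) (tl : TrlS) : GeoS := by
  rintro r (_ | j) Λ hr hj hΛ
  · omega
  have : Fact (Nat.Prime 2) := ⟨Nat.prime_two⟩
  obtain ⟨F, _, _, _, hq⟩ : ∃ (F : Type) (_ : Field F) (_ : Finite F) (_ : CharP F 2),
    Nat.card F = 2 ^ r := ⟨GaloisField 2 r, _, inferInstance, inferInstance,
      GaloisField.card 2 r (by omega)⟩
  obtain ⟨e⟩ := bv_equiv F r (add_self F) hq
  have ψ := chi_of e ⟨0, by omega⟩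
  obtain ⟨wa, w1, w2⟩ := hw F
  have cB : Nat.card (BB F) = 2 ^ (16 * r) := by
    simp only [Nat.card_fun, Nat.card_fin, hq, ← pow_mul]; congr 1; ring
  obtain ⟨eV⟩ := bv_equiv (VV F) (6 * r) (add_self F) (by
    simp only [Nat.card_fun, Nat.card_fin, hq, ← pow_mul]; congr 1; ring)
  obtain ⟨eC⟩ := bv_equiv (CC F) (3 * r) (add_self F) (by
    simp only [Nat.card_fun, Nat.card_fin, hq, ← pow_mul]; congr 1; ring)
  obtain ⟨eN⟩ := bv_equiv (NN F) (2 * r) (add_self F) (by
    simp only [Nat.card_fun, Nat.card_fin, hq, ← pow_mul]; congr 1; ring)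
  obtain ⟨eB⟩ := bv_equiv (BB F) (16 * r) (add_self F) cB
  obtain ⟨eR⟩ := bv_equiv (al F).ker (14 * r) (fun x => Subtype.ext (add_self F x.1)) (by
    have := (al F).ker.card_mul_index
    rw [AddSubgroup.index_ker, AddMonoidHom.range_eq_top.2 fun a => ⟨_, al_emb 0 a⟩,
      AddSubgroup.card_top, Nat.card_prod, hq, cB] at this
    refine Nat.eq_of_mul_eq_mul_right (by positivity) (this.trans ?_)
    rw [← pow_add, ← pow_add]; congr 1; ring)
  obtain ⟨G, hG⟩ := tg r _ _ _ _ _ _ (pgeo r wa w1 fun m f hf => by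
    simpa [hq] using hk F _ ψ m f hf) eV.toEquiv eC.toEquiv eN.toEquiv eB eR
  have : Finite Λ := Nat.finite_of_card_ne_zero (by rw [hΛ]; positivity)
  obtain ⟨eL⟩ : Nonempty (Lab F j ≃ Λ) := Finite.card_eq.1 (by
    simp only [Nat.card_fun, Nat.card_fin, hq, hΛ, ← pow_mul]; congr 1; ring)
  obtain ⟨T, t1, t2, t3⟩ := tl _ _ _ (tow F j) eL
  refine ⟨Mv F, inferInstance, T, G, t1 r G fun k => hG _ _
    (pgeo_ok h3 hu hg ha hb hq ψ _ _ _ _ (hc F j k).1 (w2 _ _ _)), t2 _ ?_, t3 ?_⟩
  · have lp := hl F r j e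
    have := h5 _ _ _ _ _ (he F r j _ e (by omega) (hm F r j _ e (by omega) (by nlinarith) lp)) lp
    intro w b φ h
    refine (this w b φ h).imp fun ls h => ⟨h.1.trans ?_, h.2⟩
    have : r ≤ r ^ 3 := Nat.le_self_pow (by norm_num) r
    nlinarith [Nat.mul_le_mul_right ((j + 1) ^ 2) this]
  · classical
    have := Fintype.ofFinite F
    obtain ⟨b, -, hb⟩ := Finset.exists_mem_notMem_of_card_lt_card
      (s := ({0, 1} : Finset F)) (t := Finset.univ) (by
        rw [Finset.card_univ, ← Nat.card_eq_fintype_card, hq]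
        exact Finset.card_le_two.trans_lt (Nat.pow_lt_pow_right (a := 2) (m := 1) (by norm_num)
          (by omega)))
    simp only [Finset.mem_insert, Finset.mem_singleton, not_or] at hb
    exact ht F j b hb.1 hb.2 fun k => (hc F j k).2

end Pool.Agent.PP.D
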