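import Pool.Agent.MP_13199e_lc.PP.Model

/-! PROJECT PP, block D: the moves, the tower, the clouds, routes; definitions and basic facts. -/

set_option autoImplicit false
set_option linter.unusedSectionVars false

namespace Pool.Agent.PP.D

open Function

/-! ### Moves and words -/

/-- The moves on six coordinates `x 0, …, x 5`. -/
inductive Mv (F : Type) : Type
  | lin (e : Bool) (b : F)
  | tr (b : F)
  | sw (s : Fin 5)

instance {F : Type} [Finite F] : Finite (Mv F) :=
  Finite.of_surjective (fun x : (Bool × F) ⊕ F ⊕ Fin 5 =>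
    Sum.elim (fun p => Mv.lin p.1 p.2) (Sum.elim Mv.tr Mv.sw) x) fun m => by
      cases m with
      | lin e b => exact ⟨.inl (e, b), rfl⟩
      | tr b => exact ⟨.inr (.inl b), rfl⟩
      | sw s => exact ⟨.inr (.inr s), rfl⟩

/-- The transpositions `(0 3), (1 2), (2 4), (3 4), (4 5)`. -/
def sg : Fin 5 → Fin 6 → Fin 6 :=
  ![![3, 1, 2, 0, 4, 5], ![0, 2, 1, 3, 4, 5], ![0, 1, 4, 3, 2, 5], ![0, 1, 2, 4, 3, 5],
    ![0, 1, 2, 3, 5, 4]]

theorem sg_sg : ∀ s a, sg s (sg s a) = a := by decide

/-- A product of transpositions. -/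
def pm (l : List (Fin 5)) (a : Fin 6) : Fin 6 := l.foldr sg a

/-- A product that sends `0, 1` to `a, b`. -/
def pt : Fin 6 → Fin 6 → List (Fin 5) :=
  ![![[], [], [1], [3, 2, 1], [2, 1], [4, 2, 1]],
    ![[1, 2, 0, 3, 2, 1, 0], [], [1, 2, 3, 0], [1, 2, 3, 2, 1, 0], [1, 2, 3, 1, 0],
      [4, 1, 2, 3, 1, 0]],
    ![[2, 0, 3, 2, 1, 0], [2, 3, 0], [], [2, 3, 2, 1, 0], [2, 3, 1, 0], [4, 2, 3, 1, 0]],
    ![[0, 3, 2, 1], [0], [1, 0], [], [2, 1, 0], [4, 2, 1, 0]],
    ![[0, 3, 2, 1, 0], [3, 0], [3, 1, 0], [3, 2, 1, 0], [], [3, 4, 2, 1, 0]],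
    ![[4, 0, 3, 2, 1, 0], [4, 3, 0], [4, 3, 1, 0], [4, 3, 2, 1, 0], [2, 4, 3, 1, 0], []]]

theorem pt_spec : ∀ a b, a ≠ b → pm (pt a b) 0 = a ∧ pm (pt a b) 1 = b := by decide

theorem pt_len : ∀ a b, (pt a b).length ≤ 7 := by decide

theorem pm_rev (l : List (Fin 5)) (a : Fin 6) : pm l (pm l.reverse a) = a := by
  induction l generalizing a with
  | nil => rfl
  | cons s l ih =>
    have : pm (s :: l).reverse a = pm l.reverse (sg s a) := by simp [pm, List.foldr_append]
    rw [this]
    show sg s (pm l _) = a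
    rw [ih, sg_sg]

theorem rev_pm (l : List (Fin 5)) (a : Fin 6) : pm l.reverse (pm l a) = a := by
  simpa using pm_rev l.reverse a

variable {F : Type}

/-- The move `m` on the coordinates `a, b` in place of `0, 1`. -/
def cj (a b : Fin 6) (m : Mv F) : List (Mv F) :=
  (pt a b).map .sw ++ m :: (pt a b).reverse.map .sw

/-- The word for `x a += c t^e (x b)`. -/
def ew (a b : Fin 6) (e : Bool) (c : F) : List (Mv F) := cj a b (.lin e c)

/-- The word for `x a += c o`. -/
def tl (a : Fin 6) (c : F) : List (Mv F) := cj a (a + 1) (.tr c)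

theorem cj_len (a b : Fin 6) (m : Mv F) : (cj a b m).length ≤ 15 := by
  have := pt_len a b
  simp only [cj, List.length_append, List.length_map, List.length_cons, List.length_reverse]
  omega

theorem ew_len (a b : Fin 6) (e : Bool) (c : F) : (ew a b e c).length ≤ 15 := cj_len _ _ _

theorem tl_len (a : Fin 6) (c : F) : (tl a c).length ≤ 15 := cj_len _ _ _

variable [Field F] {A : Type} [AddCommGroup A] [Module F A] (t : A →ₗ[F] A) (o : A)

/-- `t ^ e`. -/
def te : Bool → A →ₗ[F] A
  | true => t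
  | false => LinearMap.id

@[simp] theorem te_true (x : A) : te t true x = t x := rfl

@[simp] theorem te_false (x : A) : te t false x = x := rfl

/-- The action of the moves. -/
def mv : Mv F → (Fin 6 → A) → Fin 6 → A
  | .lin e b, x => x + Pi.single 0 (b • te t e (x 1))
  | .tr b, x => x + Pi.single 0 (b • o)
  | .sw s, x => fun a => x (sg s a)

theorem run_sw (l : List (Fin 5)) (x : Fin 6 → A) :
    run (mv t o) (l.map .sw) x = fun a => x (pm l a) := by
  induction l generalizing x with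
  | nil => rfl
  | cons s l ih => rw [List.map_cons, run_cons, ih]; rfl

theorem run_cj {a b : Fin 6} (h : a ≠ b) (m : Mv F) (x : Fin 6 → A) (y : A)
    (hm : mv t o m (fun c => x (pm (pt a b) c)) = (fun c => x (pm (pt a b) c)) + Pi.single 0 y) :
    run (mv t o) (cj a b m) x = x + Pi.single a y := by
  rw [cj, run_append, run_sw, run_cons, hm, run_sw]
  funext c
  rw [Pi.add_apply, Pi.add_apply, pm_rev]
  congr 1
  by_cases hc : c = a
  · rw [hc, Pi.single_eq_same]
    conv_lhs => rw [← (pt_spec a b h).1]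
    rw [(pt_spec a b h).1]
    have := rev_pm (pt a b) 0
    rw [(pt_spec a b h).1] at this
    rw [this, Pi.single_eq_same]
  · rw [Pi.single_eq_of_ne hc, Pi.single_eq_of_ne]
    intro e
    have := pm_rev (pt a b) c
    rw [e, (pt_spec a b h).1] at this
    exact hc this.symm

theorem run_ew {a b : Fin 6} (h : a ≠ b) (e : Bool) (c : F) (x : Fin 6 → A) :
    run (mv t o) (ew a b e c) x = x + Pi.single a (c • te t e (x b)) :=
  run_cj t o h _ x _ (by simp only [mv, (pt_spec a b h).2])

theorem run_tl (a : Fin 6) (c : F) (x : Fin 6 → A) :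
    run (mv t o) (tl a c) x = x + Pi.single a (c • o) :=
  run_cj t o (by revert a; decide) _ x _ rfl

variable (F) in
theorem add_self [CharP F 2] (a : A) : a + a = 0 := by
  rw [← two_smul F, CharTwo.two_eq_zero, zero_smul]

theorem mv_mv [CharP F 2] (m : Mv F) (x : Fin 6 → A) : mv t o m (mv t o m x) = x := by
  cases m with
  | lin e b => simp [mv, add_assoc, add_self F]
  | tr b => simp [mv, add_assoc, add_self F]
  | sw s => funext a; simp [mv, sg_sg]

theorem run_rev [CharP F 2] (l : List (Mv F)) (x : Fin 6 → A) :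
    run (mv t o) l (run (mv t o) l.reverse x) = x := by
  induction l generalizing x with
  | nil => rfl
  | cons m l ih => rw [List.reverse_cons, run_append, run_cons, run_cons, run_nil, mv_mv, ih]

theorem rev_run [CharP F 2] (l : List (Mv F)) (x : Fin 6 → A) :
    run (mv t o) l.reverse (run (mv t o) l x) = x := by
  simpa using run_rev t o l.reverse x

theorem mv_tr0 (x : Fin 6 → A) : mv t o (.tr 0) x = x := by simp [mv]

/-- `o` generates the module. -/
def Cyc : Prop := Submodule.span F (Set.range fun n : ℕ => (t ^ n) o) = ⊤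

/-- `o` is killed by no polynomial of degree `< n`. -/
def Ind (n : ℕ) : Prop :=
  ∀ p : Polynomial F, p.natDegree < n → Polynomial.aeval t p o = 0 → p = 0

/-! ### The tower -/

/-- The low digits. -/
abbrev Lw (F : Type) (j : ℕ) : Type := Fin (j + 1) → F

/-- The labels. -/
abbrev Lab (F : Type) (j : ℕ) : Type := Fin 6 → Lw F j

variable (F) in
/-- The shift of the low digits. -/
def sh (j : ℕ) : Lw F j →ₗ[F] Lw F j where
  toFun l := Fin.cons 0 (Fin.init l)
  map_add' a b := by funext i; cases i using Fin.cases <;> simp [Fin.init]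
  map_smul' a b := by funext i; cases i using Fin.cases <;> simp [Fin.init]

@[simp] theorem sh_zero (j : ℕ) (l : Lw F j) : sh F j l 0 = 0 := rfl

@[simp] theorem sh_succ (j : ℕ) (l : Lw F j) (i : Fin j) : sh F j l i.succ = l i.castSucc := rfl

/-- The shift of all digits. -/
def xt (j : ℕ) : A × Lw F j →ₗ[F] A × Lw F j where
  toFun y := (t y.1 + y.2 (Fin.last j) • o, sh F j y.2)
  map_add' a b := by ext1 <;> simp [add_smul]; abel
  map_smul' a b := by ext1 <;> simp [mul_smul]

theorem xt_apply (j : ℕ) (y : A × Lw F j) :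
    xt t o j y = (t y.1 + y.2 (Fin.last j) • o, sh F j y.2) := rfl

variable (F A) in
/-- The lowest digit. -/
def xo (j : ℕ) : A × Lw F j := (0, Pi.single 0 1)

/-- High digits and low digits. -/
def spl (A L : Type) : (Fin 6 → A × L) ≃ (Fin 6 → A) × (Fin 6 → L) where
  toFun y := (fun a => (y a).1, fun a => (y a).2)
  invFun y a := (y.1 a, y.2 a)
  left_inv _ := rfl
  right_inv _ := rfl

/-- The action of a move on the labels. -/
def bl (j : ℕ) : Mv F → Lab F j → Lab F j := mv (sh F j) (Pi.single 0 1)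

/-- The action of a move on the high digits. -/
def cw (j : ℕ) : Mv F → Lab F j → List (Mv F)
  | .lin false b, _ => [.lin false b]
  | .lin true b, l => [.lin true b, .tr (b * l 1 (Fin.last j))]
  | .tr _, _ => []
  | .sw s, _ => [.sw s]

theorem spl_mv (j : ℕ) (m : Mv F) (y : Fin 6 → A × Lw F j) :
    spl _ _ (mv (xt t o j) (xo F A j) m y) =
      (run (mv t o) (cw j m (spl _ _ y).2) (spl _ _ y).1, bl j m (spl _ _ y).2) := by
  rcases m with ⟨_ | _, b⟩ | b | s
  all_goals
    refine Prod.ext (funext fun a => ?_) (funext fun a => ?_) <;>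
      by_cases h : a = 0 <;> simp [spl, mv, cw, bl, xo, xt_apply, h, mul_smul, add_assoc]

/-- A finite module with an endomorphism and a vector. -/
structure Sp (F : Type) [Field F] where
  A : Type
  [ag : AddCommGroup A]
  [md : Module F A]
  [fin : Finite A]
  t : A →ₗ[F] A
  o : A

attribute [instance] Sp.ag Sp.md Sp.fin

variable (F) in
/-- The module of `k (j + 1)` digits. -/
def lev [Finite F] (j : ℕ) : ℕ → Sp F
  | 0 => ⟨PUnit, 0, 0⟩
  | k + 1 => ⟨(lev j k).A × Lw F j, xt (lev j k).t (lev j k).o j, xo F _ j⟩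

variable (F) in
/-- The tower.  `(tow F j).mv (k + 1)` is `mv (xt t o j) (xo F A j)` by `rfl`. -/
def tow [Finite F] [CharP F 2] (j : ℕ) : Tow (Mv F) (Lab F j) where
  Z k := Fin 6 → (lev F j k).A
  fin _ := inferInstance
  one := Nat.card_unique (α := Fin 6 → PUnit)
  mv k := mv (lev F j k).t (lev F j k).o
  inj _ m := LeftInverse.injective (mv_mv _ _ m)
  m0 := .tr 0
  id0 _ := mv_tr0 _ _
  sp k := spl (lev F j k).A (Lw F j)
  cw := cw j
  β := bl j
  self k := spl_mv (lev F j k).t (lev F j k).o j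

/-! ### Clouds -/

/-- Types: `M a j` is the coefficient of `x (1 + a)` in `x (3 + j)`. -/
abbrev VV (F : Type) : Type := Fin 2 → Fin 3 → F
/-- Charts. -/
abbrev CC (F : Type) : Type := Fin 3 → F
/-- Links. -/
abbrev NN (F : Type) : Type := Fin 2 → F
/-- Small groups. -/
abbrev TT (F : Type) : Type := Fin 7 → F
/-- The group. -/
abbrev BB (F : Type) : Type := Fin 4 → Fin 4 → F

/-- The invariants. -/
def ph (M : VV F) (x : Fin 6 → A) (j : Fin 3) : A :=
  ![x 3, x 4, x 5] j - M 0 j • x 1 - M 1 j • x 2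

/-- The affine form with the coefficients `c`. -/
def el (M : VV F) (x : Fin 6 → A) (c : Fin 4 → F) : A :=
  t (c 0 • ph M x 0 + c 1 • ph M x 1 + c 2 • ph M x 2) + c 3 • o

/-- The action of the group. -/
def act (M : VV F) (h : BB F) (x : Fin 6 → A) : Fin 6 → A :=
  x + ![el t o M x (h 0) + t (el t o M x (h 1)), el t o M x (h 2), el t o M x (h 3),
    M 0 0 • el t o M x (h 2) + M 1 0 • el t o M x (h 3),
    M 0 1 • el t o M x (h 2) + M 1 1 • el t o M x (h 3),
    M 0 2 • el t o M x (h 2) + M 1 2 • el t o M x (h 3)]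

/-- The action of a small group. -/
def sub (u φ : Fin 6 → F) (a : F × F) (x : Fin 6 → A) : Fin 6 → A :=
  fun i => x i + u i • (a.1 • t (∑ k, φ k • x k) + a.2 • o)

/-- The direction of a small group. -/
def uu (τ : TT F) : Fin 6 → F := ![τ 0, 1, τ 1, τ 2, τ 3, τ 4]

/-- The invariant of a small group. -/
def ff (τ : TT F) : Fin 6 → F := ![0, -(τ 5 * τ 1 + τ 6 * τ 3 + τ 4), τ 5, 0, τ 6, 1]

variable (F) in
/-- Type and chart against small group and link. -/
def ee : VV F × CC F ≃ TT F × NN F where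
  toFun p := (![p.2 0, p.2 1, p.1 0 0 + p.2 1 * p.1 1 0, p.1 0 1 + p.2 1 * p.1 1 1,
    p.1 0 2 + p.2 1 * p.1 1 2, -(p.1 1 2 + p.2 2 * p.1 1 1), p.2 2], ![p.1 1 0, p.1 1 1])
  invFun q := (![![q.1 2 - q.1 1 * q.2 0, q.1 3 - q.1 1 * q.2 1,
    q.1 4 + q.1 1 * (q.1 5 + q.1 6 * q.2 1)], ![q.2 0, q.2 1, -(q.1 5 + q.1 6 * q.2 1)]],
    ![q.1 0, q.1 1, q.1 6])
  left_inv p := by
    refine Prod.ext (funext fun a => funext fun j => ?_) (funext fun j => ?_)
    · fin_cases a <;> fin_cases j <;> simp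
    · fin_cases j <;> simp
  right_inv q := by
    refine Prod.ext (funext fun j => ?_) (funext fun j => ?_)
    · fin_cases j <;> simp
      ring
    · fin_cases j <;> simp

/-- The small group inside the group. -/
def emb (c : CC F) : F × F →+ BB F where
  toFun a i j := ![c 0, 0, 1, c 1] i * ![0, c 2 * a.1, a.1, a.2] j
  map_zero' := by funext i j; fin_cases j <;> simp
  map_add' a b := by funext i j; fin_cases j <;> simp [mul_add]

variable (F) in
/-- The projection to the small group. -/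
def al : BB F →+ F × F where
  toFun h := (h 2 2, h 2 3)
  map_zero' := rfl
  map_add' _ _ := rfl

@[simp] theorem al_emb (c : CC F) (a : F × F) : al F (emb c a) = a := by simp [al, emb]

/-- The permutation that is split off a move. -/
def pw : Mv F → List (Mv F)
  | .sw 0 => [.sw 0]
  | .sw 2 => [.sw 2]
  | _ => []

/-- A permutation of the indices, as an additive automorphism. -/
def rix {ι G : Type} [AddCommGroup G] (σ : Equiv.Perm ι) : (ι → G) ≃+ (ι → G) where
  toFun x i := x (σ i)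
  invFun x i := x (σ.symm i)
  left_inv x := by funext i; simp
  right_inv x := by funext i; simp
  map_add' _ _ := rfl

theorem rix_apply {ι G : Type} [AddCommGroup G] (σ : Equiv.Perm ι) (x : ι → G) (i : ι) :
    rix σ x i = x (σ i) := rfl

/-- Its action on the small groups. -/
def pT : Mv F → Equiv.Perm (TT F)
  | .sw 0 => (rix (.swap 0 2)).toEquiv
  | .sw 2 => (rix (.swap 1 3 * .swap 5 6)).toEquiv
  | _ => 1

/-- The action of a move on the types. -/
def mu : Mv F → Equiv.Perm (VV F)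
  | .sw 1 => (rix (.swap 0 1)).toEquiv
  | .sw 3 => Equiv.piCongrRight fun _ => (rix (.swap 0 1)).toEquiv
  | .sw 4 => Equiv.piCongrRight fun _ => (rix (.swap 1 2)).toEquiv
  | _ => 1

/-- The action of a move on the group. -/
def LL : Mv F → BB F ≃+ BB F
  | .lin e b =>
    { toFun h := h + Pi.single (bif e then 1 else 0) (b • h 2)
      invFun h := h - Pi.single (bif e then 1 else 0) (b • h 2)
      left_inv h := by cases e <;> simp
      right_inv h := by cases e <;> simp
      map_add' h h' := by rw [Pi.add_apply, smul_add, Pi.single_add]; abel }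
  | .sw 1 => rix (.swap 2 3)
  | .sw 3 => AddEquiv.piCongrRight fun _ => rix (.swap 0 1)
  | .sw 4 => AddEquiv.piCongrRight fun _ => rix (.swap 1 2)
  | _ => AddEquiv.refl _

/-- The change of the type, the chart and the link. -/
def tw (m : Mv F) : Equiv.Perm (VV F × CC F × NN F) :=
  (Equiv.prodAssoc _ _ _).symm.trans <|
    ((((mu m).prodCongr (.refl _)).trans (ee F)).prodCongr (.refl _)).trans <|
      (Equiv.prodAssoc _ _ _).trans <| ((pT m).prodCongr (.prodComm _ _)).trans <|
        (Equiv.prodAssoc _ _ _).symm.trans <|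
          ((ee F).symm.prodCongr (.refl _)).trans (Equiv.prodAssoc _ _ _)

theorem tw_apply (m : Mv F) (M : VV F) (c : CC F) (N : NN F) : tw m (M, c, N) =
    (((ee F).symm (pT m (ee F (mu m M, c)).1, N)).1,
      ((ee F).symm (pT m (ee F (mu m M, c)).1, N)).2, (ee F (mu m M, c)).2) := rfl

/-! ### Characters -/

/-- A nontrivial real character. -/
structure Chi (ψ : F → ℝ) : Prop where
  add : ∀ x y, ψ (x + y) = ψ x * ψ y
  sq : ∀ x, ψ x * ψ x = 1
  ne : ∃ x, ψ x ≠ 1

theorem Chi.zero {ψ : F → ℝ} (h : Chi ψ) : ψ 0 = 1 := by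
  rw [← add_zero (0 : F), h.add, h.sq]

theorem Chi.abs {ψ : F → ℝ} (h : Chi ψ) (x : F) : |ψ x| = 1 := by
  rcases mul_self_eq_one_iff.1 (h.sq x) with e | e <;> simp [e]

/-- Orthogonality. -/
theorem Chi.av_lin {ψ : F → ℝ} (h : Chi ψ) [Finite A] (ℓ : A →ₗ[F] F) :
    av (fun w => ψ (ℓ w)) = ind (ℓ = 0) := by
  by_cases h0 : ℓ = 0
  · simp only [h0, LinearMap.zero_apply, h.zero, av_const, ind_pos]
  · obtain ⟨x, hx⟩ := h.ne
    obtain ⟨w, rfl⟩ := LinearMap.surjective_iff_ne_zero.2 h0 x
    have := av_shift (fun w => ψ (ℓ w)) w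
    simp only [map_add, h.add, av_mul'] at this
    rw [ind_neg h0]
    exact by_contra fun k => hx (mul_left_cancel₀ k (this.trans (mul_one _).symm))

theorem Chi.av_mul {ψ : F → ℝ} (h : Chi ψ) [Finite F] (s : F) :
    av (fun c => ψ (c * s)) = ind (s = 0) :=
  (h.av_lin (LinearMap.toSpanSingleton F F s)).trans
    (congrArg ind (propext (LinearMap.toSpanSingleton_eq_zero_iff F F)))

/-- A Fourier coefficient. -/
noncomputable def fh (ψ : F → ℝ) (f : A → ℝ) (ξ : Module.Dual F A) : ℝ :=
  av fun x => f x * ψ (ξ x)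

/-- The spectral bound for a family of actions. -/
def Spc {U H Z : Type} (σ : U → H → Z → Z) (lam : ℝ) : Prop :=
  ∀ f : Z → ℝ, av f = 0 →
    av (fun u => av fun x => f x * av fun a => f (σ u a x)) ≤ lam * av fun x => f x ^ 2

/-- Groups of exponent two are groups of bit vectors. -/
theorem bv_equiv (G : Type) [AddCommGroup G] (n : ℕ) (h2 : ∀ x : G, x + x = 0)
    (hc : Nat.card G = 2 ^ n) : Nonempty (G ≃+ Bv n) := by
  let _ : Module (ZMod 2) G := AddCommGroup.zmodModule fun x => (two_nsmul x).trans (h2 x)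
  have : Finite G := Nat.finite_of_card_ne_zero (by rw [hc]; positivity)
  rw [Module.natCard_eq_pow_finrank (K := ZMod 2), Nat.card_zmod] at hc
  exact ⟨(LinearEquiv.ofFinrankEq (R := ZMod 2) G (Bv n)
    ((Nat.pow_right_injective le_rfl hc).trans (by simp))).toAddEquiv⟩

/-- Clouds over arbitrary types. -/
structure PGeo (r : ℕ) (V C N B R Mv : Type) [AddCommGroup B] [AddCommGroup R] where
  tw : Mv → Equiv.Perm (V × C × N)
  A : Mv → V × C × N → B →+ B
  ro : Mv → C → B →+ R
  wa : V → B → List Mv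
  wc : Mv → V → R → List Mv
  la : ∀ M h, (wa M h).length ≤ 1000
  lc : ∀ m M ρ, (wc m M ρ).length ≤ 1000
  link : ∀ m (F : V → ℝ), (∀ M, 0 ≤ F M ∧ F M ≤ 1) →
    av (fun M => (av (fun u => F (tw m (M, u)).1) - av F) ^ 2) ≤ 2 / 2 ^ r

/-- The facts on the clouds in one space. -/
structure PGeo.Ok {r : ℕ} {V C N B R Mv Z : Type} [AddCommGroup B] [AddCommGroup R]
    (G : PGeo r V C N B R Mv) (mv : Mv → Z → Z) : Prop where
  zero : ∀ M z, run mv (G.wa M 0) z = z
  add : ∀ M h h' z, run mv (G.wa M (h + h')) z = run mv (G.wa M h) (run mv (G.wa M h') z)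
  key : ∀ m u h z, mv m (run mv (G.wa u.1 h) z) =
    run mv (G.wa (G.tw m u).1 (G.A m u h)) (run mv (G.wc m u.1 (G.ro m u.2.1 h)) z)
  gain : ∀ m (D : Z → V → C → R → ℝ) (g η d : ℝ), 0 < g →
    g ^ 2 ≤ 2 ^ r → 0 < η → (∀ z M c ρ, 0 ≤ D z M c ρ ∧ D z M c ρ ≤ 1) →
    av (fun u : Z × V × C × R => D u.1 u.2.1 u.2.2.1 u.2.2.2) ≤ d →
    d ≤ η / 2 → pr (fun v => η ≤ av fun u : V × C × B =>
      D (run mv (G.wa u.1 u.2.2) v) u.1 u.2.1 (G.ro m u.2.1 u.2.2)) ≤ 12 * d / (g * η ^ 2)

/-! ### Routes -/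

section
variable {M Λ : Type} (T : Tow M Λ)

/-- The map `Φ` is a product of at most `n` conditional moves. -/
def Rt (n : ℕ) (Φ : ∀ k, T.Z k × Λ → T.Z k × Λ) : Prop :=
  ∃ ls : List (M × (Λ → Bool)), ls.length ≤ n ∧ ∀ k,
    (∀ a ∈ ls, Injective (lay (T.mv (k + 1)) (fun y => (T.sp k y).2) a)) ∧
    ∀ y, T.sp k (run (lay (T.mv (k + 1)) fun y => (T.sp k y).2) ls y) = Φ k (T.sp k y)

/-- Permutations of the labels are routes. -/
def LP (n : ℕ) : Prop := ∀ σ : Equiv.Perm Λ, Rt T n fun _ y => (y.1, σ y.2)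

/-- A coarse word that depends on the label is a route. -/
def CW (n : ℕ) (w : Λ → List M) : Prop := Rt T n fun k y => (run (T.mv k) (w y.2) y.1, y.2)

/-- A conditional coarse move is a route. -/
def CM (n : ℕ) (m : M) (P : Λ → Bool) : Prop := CW T n fun l => bif P l then [m] else []

/-- An involution without fixed points. -/
def Fpf (φ : Λ → Λ) : Prop := ∀ l, φ (φ l) = l ∧ φ l ≠ l

/-- A balanced bit. -/
def Bal (χ : Λ → Bool) : Prop := ∃ φ : Λ → Λ, ∀ l, φ (φ l) = l ∧ χ (φ l) = !χ l

/-- All even conditions are routes. -/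
def CE (n : ℕ) (m : M) : Prop := ∀ P φ, Fpf φ → (∀ l, P (φ l) = P l) → CM T n m P

variable {T} {n n' : ℕ} {Φ Ψ : ∀ k, T.Z k × Λ → T.Z k × Λ}

theorem Rt.mono (h : Rt T n Φ) (hn : n ≤ n') : Rt T n' Φ :=
  h.imp fun _ h => ⟨h.1.trans hn, h.2⟩

theorem Rt.congr (h : Rt T n Φ) (e : ∀ k z l, Φ k (z, l) = Ψ k (z, l)) : Rt T n Ψ :=
  (funext fun k => funext fun y => e k y.1 y.2 : Φ = Ψ) ▸ h

theorem Rt.nil : Rt T 0 fun _ y => y := ⟨[], le_rfl, fun _ => ⟨by simp, fun _ => rfl⟩⟩

/-- First `Φ`, then `Ψ`. -/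
theorem Rt.comp (h : Rt T n Φ) (h' : Rt T n' Ψ) : Rt T (n + n') fun k y => Ψ k (Φ k y) := by
  obtain ⟨l, a, b⟩ := h
  obtain ⟨l', a', b'⟩ := h'
  refine ⟨l ++ l', by rw [List.length_append]; omega, fun k => ⟨fun c hc => ?_, fun y => ?_⟩⟩
  · exact (List.mem_append.1 hc).elim ((b k).1 c) ((b' k).1 c)
  · rw [run_append, (b' k).2, (b k).2]

theorem lab_mv (k : ℕ) (m : M) (y : T.Z (k + 1)) :
    (T.sp k (T.mv (k + 1) m y)).2 = T.β m (T.sp k y).2 := by rw [T.self]

theorem lab_run (k : ℕ) (g : List M) (y : T.Z (k + 1)) :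
    (T.sp k (run (T.mv (k + 1)) g y)).2 = run T.β g (T.sp k y).2 := by
  induction g generalizing y with
  | nil => rfl
  | cons m g ih => rw [run_cons, ih, lab_mv, run_cons]

/-- One conditional fine move. -/
theorem rt_lay (m : M) (P : Λ → Bool) (hP : ∀ l, P (T.β m l) = P l) :
    Rt T 1 fun k y => bif P y.2 then T.sp k (T.mv (k + 1) m ((T.sp k).symm y)) else y := by
  refine ⟨[(m, P)], le_rfl, fun k => ⟨fun a ha y y' e => ?_, fun y => ?_⟩⟩
  · obtain rfl := List.mem_singleton.1 ha
    have key : ∀ z, P (T.sp k (lay (T.mv (k + 1)) (fun y => (T.sp k y).2) (m, P) z)).2 =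
        P (T.sp k z).2 := fun z => by
      simp only [lay]
      cases h : P (T.sp k z).2
      · exact h
      · exact (congrArg P (lab_mv k m z)).trans ((hP _).trans h)
    have h1 := (key y).symm.trans ((congrArg (fun z => P (T.sp k z).2) e).trans (key y'))
    simp only [lay] at e
    rw [h1] at e
    cases h : P (T.sp k y').2 <;> rw [h] at e
    exacts [e, T.inj _ m e]
  · simp only [run_cons, run_nil, lay, Equiv.symm_apply_apply]
    cases P (T.sp k y).2 <;> rfl

/-- An unconditional fine word. -/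
theorem rt_word (g : List M) :
    Rt T g.length fun k y => T.sp k (run (T.mv (k + 1)) g ((T.sp k).symm y)) := by
  induction g with
  | nil => exact Rt.nil.congr fun k z l => by simp
  | cons m g ih =>
    exact (((rt_lay m (fun _ => true) fun _ => rfl).comp ih).mono (by simp [add_comm])).congr
      fun k z l => by simp

/-- A conjugate of a conditional fine move. -/
theorem rt_conj (g g' : List M) (m : M) (P : Λ → Bool)
    (hg : ∀ k y, run (T.mv (k + 1)) g (run (T.mv (k + 1)) g' y) = y)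
    (hP : ∀ l, P (run T.β g (T.β m l)) = P (run T.β g l)) :
    Rt T (g'.length + 1 + g.length) fun k y => bif P y.2 then
      T.sp k (run (T.mv (k + 1)) (g' ++ m :: g) ((T.sp k).symm y)) else y :=
  (((rt_word g').comp (rt_lay m (fun l => P (run T.β g l)) hP)).comp (rt_word g)).congr
    fun k z l => by
      rw [← lab_run, hg, Equiv.apply_symm_apply, run_append, run_cons]
      cases P l <;> simp [hg]

theorem CW.mono {w : Λ → List M} (h : CW T n w) (hn : n ≤ n') : CW T n' w := Rt.mono h hn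

theorem CW.congr {w w' : Λ → List M} (h : CW T n w)
    (e : ∀ k z l, run (T.mv k) (w l) z = run (T.mv k) (w' l) z) : CW T n w' :=
  Rt.congr h fun k z l => Prod.ext (e k z l) rfl

theorem CW.nil : CW T 0 fun _ => [] := Rt.nil

theorem CW.app {w w' : Λ → List M} (h : CW T n w) (h' : CW T n' w') :
    CW T (n + n') fun l => w l ++ w' l :=
  (Rt.comp h h').congr fun _ _ _ => Prod.ext (run_append _ _ _ _).symm rfl

end

end Pool.Agent.PP.D
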