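import Pool.Agent.MP_13199e_lc.PP.Model

/-! PROJECT PP, block D: the Benes network in triangular form. -/

set_option autoImplicit false

namespace Pool.Agent.PP

open Equiv Function

variable {L : Type}

/-- Two involutions without fixed points have a common colouring with two colours. -/
theorem two_col {s r : L → L} (hs : Involutive s) (hr : Involutive r) (fs : ∀ x, s x ≠ x)
    (fr : ∀ x, r x ≠ x) : ∃ c : L → Bool, ∀ x, c (s x) = !c x ∧ c (r x) = !c x := by
  classical
  set S : Perm L := hs.toPerm s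
  set R : Perm L := hr.toPerm r
  have sS : S * S = 1 := Equiv.ext hs
  have sR : R * R = 1 := Equiv.ext hr
  have c1 : ∀ i : ℤ, S * (S * R) ^ i = (S * R) ^ (-i) * S := fun i => by
    rw [← inv_zpow']
    refine SemiconjBy.zpow_right ?_ i
    rw [SemiconjBy, mul_inv_rev, inv_eq_of_mul_eq_one_right sS, inv_eq_of_mul_eq_one_right sR,
      ← mul_assoc, sS, mul_assoc, sS, one_mul, mul_one]
  have c2 : ∀ (i : ℤ) x, s (((S * R) ^ i) x) = ((S * R) ^ (-i)) (s x) := fun i x =>
    congrArg (fun e : Perm L => e x) (c1 i)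
  have ne : ∀ x, ¬(S * R).SameCycle x (s x) := by
    rintro x ⟨k, hk⟩
    have a : ∀ i j : ℤ, ((S * R) ^ i) (((S * R) ^ j) x) = ((S * R) ^ (i + j)) x := fun i j => by
      rw [zpow_add]; rfl
    obtain ⟨j, rfl | rfl⟩ := Int.even_or_odd' k
    · exact fs (((S * R) ^ j) x) (by rw [c2, ← hk, a]; congr 2; ring)
    · refine fr (((S * R) ^ j) x) (hs.injective ?_)
      rw [c2, ← hk, a, show -j + (2 * j + 1) = 1 + j by ring, ← a, zpow_one]
      rfl
  let m : L → Quotient (Perm.SameCycle.setoid (S * R)) := Quotient.mk _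
  let _ : LinearOrder (Quotient (Perm.SameCycle.setoid (S * R))) :=
    linearOrderOfSTO WellOrderingRel
  have m1 : ∀ x, m (s (r x)) = m x := fun x =>
    Quotient.sound (Perm.sameCycle_apply_left.2 (Perm.SameCycle.refl (S * R) x))
  have m2 : ∀ x, m (r x) = m (s x) := fun x => by rw [← m1, hr]
  have k : ∀ x, decide (m (s x) < m x) = !decide (m x < m (s x)) := fun x => by
    have : m x ≠ m (s x) := fun e => ne x (Quotient.exact e)
    rcases this.lt_or_gt with h | h <;> simp [h, h.not_gt]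
  exact ⟨fun x => decide (m x < m (s x)), fun x =>
    ⟨by beta_reduce; rw [← k, hs], by beta_reduce; rw [← k, m1, m2]⟩⟩

theorem lay_inv {I : Type} {t : I → L → L} {a : I × (L → Bool)} (h : Involutive (t a.1))
    (ha : ∀ x, a.2 (t a.1 x) = a.2 x) : Involutive (lay t id a) := fun x => by
  cases e : a.2 x <;> simp [lay, e, ha, h x]

/-- BENES: every permutation is a product of `2 n` conditional involutions. -/
theorem benes (n : ℕ) (t : ℕ → L → L) (χ : ℕ → L → Bool) (ht : ∀ i < n, Involutive (t i))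
    (h1 : ∀ i < n, ∀ x, χ i (t i x) = !χ i x)
    (h2 : ∀ i k, i < k → k < n → ∀ x, χ k (t i x) = χ k x)
    (h3 : ∀ x y, (∀ i < n, χ i x = χ i y) → x = y) (b : Perm L) :
    ∃ ls : List (ℕ × (L → Bool)), ls.length ≤ 2 * n ∧
      (∀ a ∈ ls, a.1 < n ∧ ∀ x, a.2 (t a.1 x) = a.2 x) ∧ ∀ x, run (lay t id) ls x = b x := by
  suffices H : ∀ m ≤ n, ∀ b : Perm L, (∀ k, m ≤ k → k < n → ∀ x, χ k (b x) = χ k x) →
      ∃ ls : List (ℕ × (L → Bool)), ls.length ≤ 2 * m ∧
        (∀ a ∈ ls, a.1 < n ∧ ∀ x, a.2 (t a.1 x) = a.2 x) ∧ ∀ x, run (lay t id) ls x = b x from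
    H n le_rfl b fun k u v => absurd v u.not_gt
  intro m
  induction m with
  | zero =>
    exact fun _ b hb => ⟨[], le_rfl, by simp, fun x => h3 _ _ fun i hi => (hb i i.zero_le hi x).symm⟩
  | succ m ih =>
    intro hm b hb
    have fp : ∀ x, t m x ≠ x := fun x e => by simpa [e] using h1 m hm x
    obtain ⟨c, hc⟩ := two_col (r := fun x => b.symm (t m (b x))) (ht m hm)
      (fun x => by simp [ht m hm _]) fp fun x e => fp _ (b.symm_apply_eq.1 e)
    have key : ∀ d : L → Bool, (∀ x, d (t m x) = !d x) → ∃ a : ℕ × (L → Bool), a.1 = m ∧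
        (∀ x, a.2 (t a.1 x) = a.2 x) ∧ (∀ x, χ m (lay t id a x) = d x) ∧
        ∀ k, m < k → k < n → ∀ x, χ k (lay t id a x) = χ k x := fun d hd => by
      refine ⟨(m, fun x => d x != χ m x), rfl, fun x => by simp [hd, h1 m hm], fun x => ?_,
        fun k u v x => ?_⟩
      · cases e : d x <;> cases e' : χ m x <;> simp [lay, e, e', h1 m hm]
      · cases e : d x != χ m x <;> simp [lay, e, h2 m k u v]
    obtain ⟨p, p1, p2, p3, p4⟩ := key c fun x => (hc x).1
    obtain ⟨q, q1, q2, q3, q4⟩ := key (fun y => c (b.symm y)) fun y => by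
      simpa using (hc (b.symm y)).2
    have ip := lay_inv (p1 ▸ ht m hm) p2
    have iq := lay_inv (q1 ▸ ht m hm) q2
    obtain ⟨ls, l1, l2, l3⟩ := ih (by omega) (iq.toPerm _ * b * ip.toPerm _) fun k u v x => by
      show χ k (lay t id q (b (lay t id p x))) = _
      rcases u.eq_or_lt with rfl | u
      · rw [q3, b.symm_apply_apply, ← p3, ip]
      · rw [q4 k u v, hb k u v, p4 k u v]
    refine ⟨p :: (ls ++ [q]), by simp; omega, fun a ha => ?_, fun x => ?_⟩
    · simp only [List.mem_cons, List.mem_append, List.not_mem_nil, or_false] at ha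
      rcases ha with rfl | ha | rfl
      exacts [⟨by omega, p2⟩, l2 a ha, ⟨by omega, q2⟩]
    · rw [run_cons, run_append, l3]
      show lay t id q (lay t id q (b (lay t id p (lay t id p x)))) = _
      rw [iq, ip]

end Pool.Agent.PP
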