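import Pool.Agent.MP_13199e_lc.PP.D.Spec

/-! PROJECT PP, block D, row CEM: every move, every even condition. -/

set_option autoImplicit false

namespace Pool.Agent.PP.D

open Function

namespace Cem

variable {M Λ : Type} {T : Tow M Λ} {n n' : ℕ}

theorem mono {m : M} (h : CE T n m) (hn : n ≤ n') : CE T n' m :=
  fun P φ a b => CW.mono (h P φ a b) hn

/-- The change of the label is undone. -/
theorem undo (hL : LP T n) {f : Λ → Λ} (hf : Involutive f) {P : Λ → Bool}
    (hP : ∀ l, P (f l) = P l) {w : Λ → List M}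
    (h : Rt T n' fun k y => bif P y.2 then (run (T.mv k) (w y.2) y.1, f y.2) else y) :
    CW T (n' + n) fun l => bif P l then w l else [] := by
  have hi : Involutive fun l => bif P l then f l else l := fun l => by
    cases e : P l <;> simp [e, hP, hf l]
  refine (h.comp (hL (hi.toPerm _))).congr fun k z l => ?_
  cases e : P l <;> simp [e, hP, hf l]

theorem lay1 (hL : LP T n) {m : M} (hf : Involutive (T.β m)) {P : Λ → Bool}
    (hP : ∀ l, P (T.β m l) = P l) : CW T (1 + n) fun l => bif P l then T.cw m l else [] :=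
  undo hL hf hP ((rt_lay m P hP).congr fun k z l => by rw [T.self, Equiv.apply_symm_apply])

theorem bal {F : Type} [Field F] [CharP F 2] {r : ℕ} (j : ℕ) (e : F ≃+ Bv r) (hr : 1 ≤ r) :
    ∃ χ : Lw F j → Bool, ∀ a : Fin 6, Bal fun l : Lab F j => χ (l a) := by
  refine ⟨fun x => decide (e (x 0) ⟨0, hr⟩ = 1), fun a =>
    ⟨fun l => l + Pi.single a (Pi.single 0 (e.symm (Pi.single ⟨0, hr⟩ 1))), fun l =>
      ⟨by beta_reduce; rw [add_assoc, add_self F, add_zero], ?_⟩⟩⟩
  have : ∀ x : ZMod 2, decide (x + 1 = 1) = !decide (x = 1) := by decide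
  simpa using this _

end Cem

open Cem in
theorem cemS (h4 : R4S) (hp : ParS) (hc : CtS) : CemS := by
  intro F _ _ _ r j n e hr hn hL
  obtain ⟨χ, hχ⟩ := bal j e hr
  have hrn : n ≤ r * n := Nat.le_mul_of_pos_left n hr
  have R : ∀ m a n', CM (tow F j) n' m (fun l => χ (l a)) → CE (tow F j) (4 * n + 2 * n') m :=
    fun m a n' h => h4 _ _ (tow F j) m n n' _ (fun k => mv_mv _ _ m) hL (hχ a) h
  have hb : ∀ m, Involutive ((tow F j).β m) := fun m => mv_mv _ _ m
  have h1 : ∀ b, CE (tow F j) (8 * n) (.tr b) := fun b => by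
    obtain ⟨v, v5, hv⟩ := (hc F j b).2
    have k : ∀ l : Lab F j, χ ((l + v) 5) = χ (l 5) := fun l => by rw [Pi.add_apply, v5, add_zero]
    exact mono (R _ 5 (45 * (j + 1) + n) (undo hL (f := fun l => l + v) (w := fun _ => [.tr b])
      (fun l => by beta_reduce; rw [add_assoc, add_self F, add_zero]) k (hv (fun l => χ (l 5)) k)))
      (by omega)
  have h5 : ∀ x b (l : Lab F j), χ ((tow F j).β (.lin x b) l 5) = χ (l 5) := fun x b l => by
    simp [tow, bl, mv]
  rw [mul_assoc]
  rintro (⟨_ | _, b⟩ | b | s)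
  · exact mono (R _ 5 (1 + n) (lay1 hL (P := fun l => χ (l 5)) (hb _) (h5 false b))) (by omega)
  · have k := hp _ _ F (tow F j) r _ e .tr (tow F j).id0
      (fun k a b z => by simp [tow, mv, add_smul, Pi.single_add, add_left_comm, add_comm]) h1
      (fun l => bif χ (l 5) then b * l 1 (Fin.last j) else 0)
      (fun l => l + Pi.single 4 (Pi.single 0 1))
      (fun l => ⟨by beta_reduce; rw [add_assoc, add_self F, add_zero], fun h => by
        simpa using congrFun (congrFun h 4) 0⟩) (fun l => by simp)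
    refine mono (R _ 5 _ (((lay1 hL (P := fun l => χ (l 5)) (hb _) (h5 true b)).app k).congr
      fun k z l => ?_)) ?_
    · beta_reduce
      cases χ (l 5)
      · exact (tow F j).id0 k z
      · exact mv_mv (lev F j k).t (lev F j k).o (.tr (b * l 1 (Fin.last j))) _
    · rw [mul_left_comm r]; omega
  · exact mono (h1 b) (by omega)
  · obtain ⟨a, ha⟩ : ∃ a, sg s a = a := by revert s; decide
    exact mono (R _ a (1 + n) (lay1 hL (P := fun l => χ (l a)) (hb (.sw s))
      fun l => congrArg (fun c => χ (l c)) ha)) (by omega)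

end Pool.Agent.PP.D
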