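import Pool.Agent.MP_13199e_lc.PP.D.Spec

/-! PROJECT PP, block D, row CT: conditional translations. -/

set_option autoImplicit false
set_option linter.unusedSectionVars false

namespace Pool.Agent.PP.D

namespace Ct

variable {F : Type} [Field F]

/-- Words without translations. -/
def Lin (g : List (Mv F)) : Prop := ∀ m ∈ g, ∀ b, m ≠ .tr b

theorem lin_sw (l : List (Fin 5)) : Lin (l.map (.sw : Fin 5 → Mv F)) := fun m hm b e => by
  obtain ⟨s, -, rfl⟩ := List.mem_map.1 hm
  cases e

theorem Lin.app {g g' : List (Mv F)} (h : Lin g) (h' : Lin g') : Lin (g ++ g') :=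
  fun m hm => (List.mem_append.1 hm).elim (h m) (h' m)

theorem lin_ew (a a' : Fin 6) (e : Bool) (c : F) : Lin (ew a a' e c) :=
  (lin_sw _).app fun m hm b => by
    rcases List.mem_cons.1 hm with rfl | hm
    · exact fun e => by cases e
    · exact lin_sw _ m hm b

theorem run_add {A : Type} [AddCommGroup A] [Module F A] (t : A →ₗ[F] A) (o : A)
    {g : List (Mv F)} (h : Lin g) (x w : Fin 6 → A) :
    run (mv t o) g (x + w) = run (mv t o) g x + run (mv t o) g w := by
  induction g generalizing x w with
  | nil => rfl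
  | cons m g ih =>
    rw [run_cons, run_cons, run_cons, ← ih fun m hm => h m (List.mem_cons_of_mem _ hm)]
    refine congrArg _ ?_
    cases m with
    | lin e b =>
      simp only [mv, Pi.add_apply, map_add, smul_add, Pi.single_add]
      abel
    | tr b => exact absurd rfl (h _ List.mem_cons_self b)
    | sw s => rfl

/-- The partner. -/
def pa : Fin 6 → Fin 6 := ![1, 0, 3, 2, 5, 4]

theorem pa_spec : ∀ a, a ≠ pa a ∧ pa (pa a) = a := by decide

/-- The vector with given digits. -/
def dg {A : Type} [AddCommGroup A] [Module F A] (o : A) (j : ℕ) (q : ℕ → F) : A × Lw F j :=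
  (q (j + 1) • o, fun i => q i)

/-- The shift of the digits. -/
def up (q : ℕ → F) : ℕ → F
  | 0 => 0
  | i + 1 => q i

theorem xt_dg {A : Type} [AddCommGroup A] [Module F A] (t : A →ₗ[F] A) (o : A) (j : ℕ)
    {q : ℕ → F} (h : q (j + 1) = 0) : xt t o j (dg o j q) = dg o j (up q) := by
  refine Prod.ext ?_ (funext fun i => ?_)
  · simp [xt_apply, dg, up, h]
  · cases i using Fin.cases <;> rfl

theorem word (j : ℕ) (b : F) (n : ℕ) (hn : n ≤ j + 1) : ∀ a : Fin 6,
    ∃ (g : List (Mv F)) (q : Fin 6 → ℕ → F), Lin g ∧ g.length ≤ 7 + 15 * n ∧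
      (∀ c i, n ≤ i → q c i = if c = a ∧ i = n then b else 0) ∧
      (∀ c, c ≠ a → c ≠ pa a → q c = 0) ∧
      ∀ (A : Type) [AddCommGroup A] [Module F A] (t : A →ₗ[F] A) (o : A),
        run (mv (xt t o j) (xo F A j)) g (Pi.single 0 (b • xo F A j)) = fun c => dg o j (q c) := by
  induction n with
  | zero =>
    intro a
    refine ⟨(pt a (pa a)).reverse.map .sw, fun c i => if c = a ∧ i = 0 then b else 0, lin_sw _,
      by simpa using pt_len _ _, fun _ _ _ => rfl, fun c h _ => funext fun i => by simp [h],
      fun A _ _ t o => ?_⟩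
    rw [run_sw]
    funext c
    have h1 := (pt_spec a _ (pa_spec a).1).1
    by_cases h : c = a
    · have h2 := rev_pm (pt a (pa a)) 0
      rw [h1] at h2
      rw [h, h2, Pi.single_eq_same]
      refine Prod.ext (by simp [xo, dg]) (funext fun i => ?_)
      by_cases hi : i = 0 <;> simp [xo, dg, hi]
    · rw [Pi.single_eq_of_ne fun e => h (by rw [← pm_rev (pt a (pa a)) c, e, h1])]
      exact Prod.ext (by simp [dg, h]) (funext fun i => by simp [dg, h])
  | succ n ih =>
    intro a
    obtain ⟨g, q, h1, h2, h3, h4, h5⟩ := ih (by omega) (pa a)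
    obtain ⟨p1, p2⟩ := pa_spec a
    refine ⟨g ++ ew a (pa a) true 1, q + Pi.single a (up (q (pa a))), h1.app (lin_ew _ _ _ _), ?_,
      fun c i hi => ?_, fun c c1 c2 => ?_, fun A _ _ t o => ?_⟩
    · have := ew_len a (pa a) true (1 : F)
      rw [List.length_append]
      omega
    · obtain ⟨i, rfl⟩ : ∃ k, i = k + 1 := ⟨i - 1, by omega⟩
      have e1 : q c (i + 1) = 0 := by rw [h3 c _ (by omega), if_neg (by omega)]
      by_cases h : c = a
      · subst h
        simp [e1, up, h3 _ i (by omega)]
      · simp [e1, h]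
    · rw [Pi.add_apply, Pi.single_eq_of_ne c1, h4 c c2 (by rwa [p2]), add_zero]
    · rw [run_append, h5, run_ew _ _ p1, one_smul, te_true,
        xt_dg t o j (by rw [h3 _ _ (by omega), if_neg (by omega)])]
      funext c
      by_cases h : c = a
      · subst h
        exact Prod.ext (by simp [dg, add_smul]) (funext fun i => by simp [dg])
      · simp [h]

theorem run_conj [CharP F 2] {A : Type} [AddCommGroup A] [Module F A] (t : A →ₗ[F] A) (o : A)
    {g : List (Mv F)} (h : Lin g) (b : F) (y : Fin 6 → A) :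
    run (mv t o) (g.reverse ++ .tr b :: g) y = y + run (mv t o) g (Pi.single 0 (b • o)) := by
  rw [run_append, run_cons]
  exact (run_add t o h _ _).trans (by rw [run_rev])

theorem spl_single {A : Type} [AddCommGroup A] [Module F A] (j : ℕ) (b : F) :
    (spl _ _ (Pi.single 0 (b • xo F A j))).2 = (Pi.single 0 (b • Pi.single 0 1) : Lab F j) := by
  funext c
  by_cases h : c = 0 <;> simp [spl, xo, h]

/-- The low digits. -/
def lo (j : ℕ) (q : Fin 6 → ℕ → F) : Lab F j := fun c i => q c i

theorem conj [Finite F] [CharP F 2] {j : ℕ} {b : F} {g : List (Mv F)} {q : Fin 6 → ℕ → F}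
    (h1 : Lin g) (h2 : g.length ≤ 7 + 15 * (j + 1))
    (h5 : ∀ (A : Type) [AddCommGroup A] [Module F A] (t : A →ₗ[F] A) (o : A),
      run (mv (xt t o j) (xo F A j)) g (Pi.single 0 (b • xo F A j)) = fun c => dg o j (q c))
    (P : Lab F j → Bool) (hP : ∀ l, P (l + lo j q) = P l) :
    Rt (tow F j) (45 * (j + 1)) fun k y => bif P y.2 then
      ((fun c => y.1 c + q c (j + 1) • (lev F j k).o), y.2 + lo j q) else y := by
  have e0 : run (bl j) g (Pi.single 0 (b • Pi.single 0 1)) = lo j q := by
    have e1 := lab_run (T := tow F j) 0 g (Pi.single 0 (b • xo F _ j))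
    exact (congrArg (run (bl j) g) (spl_single j b)).symm.trans
      (e1.symm.trans (congrArg (fun z => ((tow F j).sp 0 z).2) (h5 _ _ _)))
  refine ((rt_conj (T := tow F j) g g.reverse (.tr b) P (fun k y => run_rev _ _ g y)
    fun l => ?_).mono (by rw [List.length_reverse]; omega)).congr fun k z l => ?_
  · have e1 : run (bl j) g (bl j (.tr b) l) = run (bl j) g l + lo j q :=
      (run_add _ _ h1 _ _).trans (congrArg _ e0)
    exact (congrArg P e1).trans (hP _)
  · exact congrArg (fun w => bif P l then (tow F j).sp k w else (z, l))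
      ((run_conj (xt (lev F j k).t (lev F j k).o j) (xo F _ j) h1 b _).trans
        (congrArg _ (h5 _ _ _)))

end Ct

theorem ctS : CtS := by
  intro F _ _ _ j b
  refine ⟨fun a n => ?_, ?_⟩
  · obtain ⟨g, q, h1, h2, h3, -, h5⟩ := Ct.word j b n (by omega) a
    refine ⟨Ct.lo j q, fun c i hi => (h3 c i hi).trans ?_, fun P hP => ?_⟩
    · simp only [Fin.ext_iff]
    · refine (Ct.conj h1 (by omega) h5 P hP).congr fun k z l => ?_
      have e : (fun c => z c + q c (j + 1) • (lev F j k).o) = z := funext fun c => by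
        rw [h3 c _ (by omega), if_neg (by omega), zero_smul, add_zero]
      simp only [e]
      cases P l <;> rfl
  · obtain ⟨g, q, h1, h2, h3, h4, h5⟩ := Ct.word j b (j + 1) le_rfl 0
    refine ⟨Ct.lo j q, ?_, fun P hP => ?_⟩
    · funext i
      exact congrFun (h4 5 (by decide) (by decide)) i
    · refine (Ct.conj h1 h2 h5 P hP).congr fun k z l => ?_
      have e : (fun c => z c + q c (j + 1) • (lev F j k).o) = (tow F j).mv k (.tr b) z :=
        funext fun c => by
          rw [h3 c _ le_rfl]
          refine congrArg (z c + ·) ?_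
          by_cases h : c = 0 <;> simp [h]
      simp only [e]

end Pool.Agent.PP.D
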