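import Pool.Agent.MP_13199e_lc.PP.D.Spec

/-! PROJECT PP, block D: the levels are cyclic modules of large length. -/

set_option autoImplicit false

namespace Pool.Agent.PP.D

open Polynomial

namespace Cy

variable {F : Type} [Field F] {A : Type} [AddCommGroup A] [Module F A] (t : A →ₗ[F] A) (o : A)
  (j : ℕ)

theorem low (i : ℕ) (h : i < j + 1) :
    (xt t o j ^ i) (xo F A j) = (0, Pi.single (⟨i, h⟩ : Fin (j + 1)) 1) := by
  induction i with
  | zero => rfl
  | succ i ih =>
    rw [pow_succ', Module.End.mul_apply, ih (by omega), xt_apply]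
    refine Prod.ext ?_ (funext fun k => ?_)
    · simp [Pi.single_apply, Fin.ext_iff, show j ≠ i by omega]
    · cases k using Fin.cases <;> simp [Pi.single_apply, Fin.ext_iff]

theorem top : (xt t o j ^ (j + 1)) (xo F A j) = (o, 0) := by
  rw [pow_succ', Module.End.mul_apply, low t o j j (by omega), xt_apply]
  refine Prod.ext (by simp [Fin.last]) (funext fun k => ?_)
  cases k using Fin.cases with
  | zero => simp
  | succ k => simp [Fin.ext_iff, k.2.ne]

theorem high (n : ℕ) (a : A) : (xt t o j ^ n) (a, 0) = ((t ^ n) a, 0) := by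
  induction n with
  | zero => rfl
  | succ n ih => simp [pow_succ', ih, xt_apply]

theorem ev_high (q : F[X]) (a : A) : aeval (xt t o j) q (a, 0) = (aeval t q a, 0) := by
  induction q using Polynomial.induction_on' with
  | add p q hp hq => simp [hp, hq]
  | monomial n c => simp [aeval_monomial, high]

theorem ev_low (q : F[X]) (i : Fin (j + 1)) :
    (aeval (xt t o j) q (xo F A j)).2 i = q.coeff i := by
  induction q using Polynomial.induction_on' with
  | add p q hp hq => simp [hp, hq]
  | monomial n c =>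
    rw [aeval_monomial, Module.End.mul_apply, coeff_monomial]
    rcases lt_or_ge n (j + 1) with h | h
    · simp [low t o j n h, Pi.single_apply, Fin.ext_iff, eq_comm]
    · obtain ⟨m, rfl⟩ := Nat.exists_eq_add_of_le' h
      rw [pow_add, Module.End.mul_apply, top, high, if_neg (by omega)]
      simp

theorem cyc (h : Cyc t o) : Cyc (xt t o j) (xo F A j) := by
  refine Submodule.eq_top_iff'.2 fun y => ?_
  have e : y = LinearMap.inl F A (Lw F j) y.1 +
      ∑ i, y.2 i • (0, (Pi.single i 1 : Lw F j)) := by
    refine Prod.ext (by simp [Prod.fst_sum]) (funext fun k => ?_)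
    simp [Prod.snd_sum, Pi.single_apply]
  rw [e]
  refine add_mem ?_ (Submodule.sum_mem _ fun i _ => Submodule.smul_mem _ _
    (Submodule.subset_span ⟨i, low t o j i i.2⟩))
  refine Submodule.span_induction (fun a ⟨n, hn⟩ => Submodule.subset_span ⟨n + (j + 1), ?_⟩)
    (map_zero (LinearMap.inl F A (Lw F j)) ▸ zero_mem _)
    (fun a b _ _ ha hb => map_add (LinearMap.inl F A (Lw F j)) a b ▸ add_mem ha hb)
    (fun c a _ ha => map_smul (LinearMap.inl F A (Lw F j)) c a ▸ Submodule.smul_mem _ c ha)
    (show y.1 ∈ Submodule.span F (Set.range fun n : ℕ => (t ^ n) o) from h ▸ Submodule.mem_top)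
  simp only [pow_add _ n, Module.End.mul_apply, top, high, ← hn]
  rfl

theorem ind (k : ℕ) (h : Ind t o k) : Ind (xt t o j) (xo F A j) (k + 1) := by
  intro p hp h0
  obtain ⟨q, rfl⟩ := X_pow_dvd_iff.2 fun d (hd : d < j + 1) => by
    rw [← ev_low t o j p ⟨d, hd⟩, h0]
    rfl
  by_contra k0
  have q0 : q ≠ 0 := right_ne_zero_of_mul k0
  rw [natDegree_X_pow_mul _ q0] at hp
  rw [mul_comm, map_mul, map_pow, aeval_X, Module.End.mul_apply, top, ev_high] at h0
  exact q0 (h q (by omega) (congrArg Prod.fst h0))

end Cy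

theorem cycS : CycS := by
  intro F _ _ j k
  induction k with
  | zero => exact ⟨Submodule.eq_top_iff'.2 fun y => (Subsingleton.elim (α := PUnit) 0 y) ▸
      zero_mem _, fun p hp => absurd hp (Nat.not_lt_zero _)⟩
  | succ k ih => exact ⟨Cy.cyc _ _ j ih.1, Cy.ind _ _ j k ih.2⟩

end Pool.Agent.PP.D
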