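import Pool.Agent.MP_13199e_lc.PP.D.Spec

/-! PROJECT PP, block D: the formula of Plancherel and Cayley graphs. -/

set_option autoImplicit false
set_option linter.unusedSectionVars false

namespace Pool.Agent.PP.D

namespace Four

variable {F V : Type} [Field F] [Finite F] [AddCommGroup V] [Module F V] [Finite V] {ψ : F → ℝ}

omit [Finite F] in
theorem sub_eq (h : Chi ψ) (a b : F) : ψ (a - b) = ψ a * ψ b := by
  conv_rhs => rw [← sub_add_cancel a b, h.add, mul_assoc, h.sq, mul_one]

theorem card_dual : Nat.card (Module.Dual F V) = Nat.card V := by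
  have : Module.Finite F V := .of_finite
  exact Nat.card_congr (Module.Free.chooseBasis F V).toDualEquiv.symm.toEquiv

theorem sum_chi [Fintype (Module.Dual F V)] (h : Chi ψ) (x : V) :
    ∑ ξ : Module.Dual F V, ψ (ξ x) = Nat.card V * ind (x = 0) := by
  have := h.av_lin (Module.Dual.eval F V x)
  rw [av_eq, Module.eval_apply_eq_zero_iff, ← Nat.card_eq_fintype_card, card_dual,
    div_eq_iff (Nat.cast_pos.2 Nat.card_pos).ne'] at this
  exact this.trans (mul_comm _ _)

theorem inv [Fintype (Module.Dual F V)] (h : Chi ψ) (g : V → ℝ) (x : V) :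
    ∑ ξ : Module.Dual F V, fh ψ g ξ * ψ (ξ x) = g x := by
  classical
  have := Fintype.ofFinite V
  simp only [fh, ← av_mul', mul_assoc, ← sub_eq h, ← map_sub]
  rw [← av_sum]
  simp only [← Finset.mul_sum, sum_chi h, sub_eq_zero]
  have : (Fintype.card V : ℝ) ≠ 0 := by simp
  rw [av_eq, Finset.sum_eq_single x (fun y _ hy => by simp [ind_neg hy]) (by simp), ind_pos rfl,
    Nat.card_eq_fintype_card]
  field_simp

theorem fh_shift (h : Chi ψ) (f : V → ℝ) (a : V) (ξ : Module.Dual F V) :
    fh ψ (fun x => f (x + a)) ξ = fh ψ f ξ * ψ (ξ a) := by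
  rw [fh, fh, ← av_mul', ← av_shift (fun x => f x * ψ (ξ x) * ψ (ξ a)) a]
  simp only [map_add, h.add, mul_assoc, h.sq, mul_one]

end Four

theorem fouS : FouS := fun F V _ _ _ _ _ _ ψ h f g => by
  conv_lhs => enter [1, x]; rw [← Four.inv h g x, Finset.mul_sum]
  rw [av_sum]
  refine Finset.sum_congr rfl fun ξ _ => ?_
  rw [fh.eq_1 ψ f, ← av_mul']
  exact av_congr fun x => by ring

theorem cayS : CayS := fun F V S _ _ _ _ _ _ _ ψ γ β h hβ hγ f h0 => by
  have : Finite (Module.Dual F V) := Nat.finite_of_card_ne_zero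
    (by rw [Four.card_dual]; exact Nat.card_pos.ne')
  have := Fintype.ofFinite (Module.Dual F V)
  simp only [sq]
  rw [fouS F V ψ h, fouS F V ψ h, Finset.mul_sum]
  refine Finset.sum_le_sum fun ξ _ => ?_
  have e : fh ψ (fun x => av fun s => f (x + γ s)) ξ = fh ψ f ξ * av fun s => ψ (ξ (γ s)) := by
    simp only [← av_mul, ← Four.fh_shift h]
    simp only [fh, ← av_mul']
    exact av_comm _
  rw [e]
  rcases eq_or_ne ξ 0 with rfl | hξ
  · simp [fh, h.zero, h0]
  · nlinarith [hγ ξ hξ, mul_self_nonneg (fh ψ f ξ)]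

end Pool.Agent.PP.D
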