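import Pool.Agent.MP_13199e_lc.PP.D.Spec

/-! PROJECT PP, block D, row G3: the spectral bound for the small groups. -/

set_option autoImplicit false
set_option linter.unusedSectionVars false

namespace Pool.Agent.PP.D

namespace G3

variable {F A : Type} [Field F] [AddCommGroup A] [Module F A] (t : A →ₗ[F] A) (o : A)

/-- The vector `y` in the direction `u`. -/
def dr (u : Fin 6 → F) (y : A) : Fin 6 → A := fun i => u i • y

/-- The linear part of the action. -/
def lp (u φ : Fin 6 → F) (c : F) : (Fin 6 → A) →ₗ[F] (Fin 6 → A) where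
  toFun x := x + dr u (c • t (∑ k, φ k • x k))
  map_add' x y := by
    funext i
    simp only [dr, Pi.add_apply, smul_add, Finset.sum_add_distrib, map_add]
    abel
  map_smul' r x := by
    funext i
    simp only [dr, Pi.add_apply, Pi.smul_apply, smul_add, RingHom.id_apply, smul_comm (φ _) r,
      ← Finset.smul_sum, map_smul, smul_comm c r, smul_comm (u i) r]

theorem lp_apply (u φ : Fin 6 → F) (c : F) (x : Fin 6 → A) :
    lp t u φ c x = x + dr u (c • t (∑ k, φ k • x k)) := rfl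

theorem sub_eq (u φ : Fin 6 → F) (a : F × F) (x : Fin 6 → A) :
    sub t o u φ a x = lp t u φ a.1 x + a.2 • dr u o := by
  funext i
  simp only [sub, lp_apply, dr, Pi.add_apply, Pi.smul_apply, smul_add, smul_comm (u i) a.2,
    add_assoc]

theorem lp_dr {u φ : Fin 6 → F} (h : ∑ i, φ i * u i = 0) (c : F) (y : A) :
    lp t u φ c (dr u y) = dr u y := by
  funext i
  simp only [lp_apply, dr, Pi.add_apply, smul_smul (φ _), ← Finset.sum_smul, h, zero_smul, map_zero,
    smul_zero, add_zero]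

theorem two [CharP F 2] {V : Type} [AddCommGroup V] [Module F V] (v : V) : v + v = 0 := by
  rw [← one_smul F v, ← add_smul, CharTwo.add_self_eq_zero, zero_smul]

theorem lp_lp [CharP F 2] {u φ : Fin 6 → F} (h : ∑ i, φ i * u i = 0) (c : F) (x : Fin 6 → A) :
    lp t u φ c (lp t u φ c x) = x := by
  conv_lhs => rw [lp_apply t u φ c x, map_add, lp_dr t h, lp_apply]
  rw [add_assoc, two (F := F), add_zero]

/-- The coordinates of a functional. -/
def dd (ξ : Module.Dual F (Fin 6 → A)) (n : ℕ) : Fin 6 → F := fun i => ξ (Pi.single i ((t ^ n) o))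

/-- The first level that is seen by a functional. -/
noncomputable def low (ξ : Module.Dual F (Fin 6 → A)) : ℕ := sInf {n | dd t o ξ n ≠ 0}

theorem val_dr (ξ : Module.Dual F (Fin 6 → A)) (u : Fin 6 → F) (y : A) :
    ξ (dr u y) = ∑ i, ξ (Pi.single i y) * u i := by
  rw [← Finset.univ_sum_single (dr u y), map_sum]
  refine Finset.sum_congr rfl fun i _ => ?_
  rw [dr, Pi.single_smul', map_smul, smul_eq_mul, mul_comm]

theorem dd_lp (ξ : Module.Dual F (Fin 6 → A)) (u φ : Fin 6 → F) (c : F) (n : ℕ) (i : Fin 6) :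
    dd t o (ξ ∘ₗ lp t u φ c) n i = dd t o ξ n i + c * φ i * ∑ j, dd t o ξ (n + 1) j * u j := by
  have e : ∑ k, φ k • (Pi.single i ((t ^ n) o) : Fin 6 → A) k = φ i • (t ^ n) o := by
    rw [Finset.sum_eq_single i (fun k _ hk => by rw [Pi.single_eq_of_ne hk, smul_zero]) (by simp),
      Pi.single_eq_same]
  simp only [dd, LinearMap.comp_apply, lp_apply, map_add, e, val_dr, Finset.mul_sum, map_smul,
    Pi.single_smul', smul_eq_mul, pow_succ', Module.End.mul_apply, mul_assoc]

theorem dd_low (h : Cyc t o) {ξ : Module.Dual F (Fin 6 → A)} (h0 : ξ ≠ 0) :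
    dd t o ξ (low t o ξ) ≠ 0 := by
  refine Nat.sInf_mem (s := {n | dd t o ξ n ≠ 0}) (by_contra fun k => h0 ?_)
  refine LinearMap.pi_ext' fun i => LinearMap.ext_on h ?_
  rintro _ ⟨n, rfl⟩
  exact congrFun (not_not.1 fun q => k ⟨n, q⟩ : dd t o ξ n = 0) i

/-- The weights. -/
noncomputable def wt (g : ℝ) (m n : ℕ) : ℝ := if n < m then 1 / g else if m < n then g else 1

theorem wt_le {g : ℝ} (h : 1 ≤ g) (m n : ℕ) : wt g m n ≤ g := by
  unfold wt
  split_ifs
  exacts [((div_le_one (by linarith)).2 h).trans h, le_rfl, h]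

theorem wt_am {g : ℝ} (h : 1 ≤ g) (m n : ℕ) (x y : ℝ) :
    2 * (x * y) ≤ wt g m n * x ^ 2 + wt g n m * y ^ 2 := by
  have key : ∀ x y : ℝ, 2 * (x * y) ≤ 1 / g * x ^ 2 + g * y ^ 2 := fun x y => by
    have h0 : 0 < g := by linarith
    have : 1 / g * x ^ 2 + g * y ^ 2 - 2 * (x * y) = (x - g * y) ^ 2 / g := by
      field_simp
      ring
    have := div_nonneg (sq_nonneg (x - g * y)) h0.le
    linarith
  unfold wt
  rcases lt_trichotomy n m with l | l | l
  · rw [if_pos l, if_neg l.not_gt, if_pos l]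
    exact key x y
  · rw [l, if_neg (lt_irrefl m), if_neg (lt_irrefl m)]
    nlinarith [sq_nonneg (x - y)]
  · rw [if_neg l.not_gt, if_pos l, if_pos l]
    linarith [key y x]

/-- The weight of one functional. -/
theorem point {g : ℝ} (h : 1 ≤ g) (ξ : Module.Dual F (Fin 6 → A)) (u : Fin 6 → F) {φ : Fin 6 → F}
    (hφ : φ ≠ 0) (c : F) :
    ind (ξ (dr u o) = 0) * wt g (low t o ξ) (low t o (ξ ∘ₗ lp t u φ c)) ≤
      g * ind (∑ i, dd t o ξ (low t o ξ) i * u i = 0) + 1 / g + g * ind (c = 0) := by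
  have h0 : 0 < g := by linarith
  have h1 : 0 < 1 / g := by positivity
  have a1 := mul_nonneg h0.le (ind_nonneg (∑ i, dd t o ξ (low t o ξ) i * u i = 0))
  have a2 := mul_nonneg h0.le (ind_nonneg (c = 0))
  have a3 : ind (ξ (dr u o) = 0) * wt g (low t o ξ) (low t o (ξ ∘ₗ lp t u φ c)) ≤ g := by
    by_cases q : ξ (dr u o) = 0
    · rw [ind_pos q, one_mul]; exact wt_le h _ _
    · rw [ind_neg q, zero_mul]; exact h0.le
  by_cases e1 : ∑ i, dd t o ξ (low t o ξ) i * u i = 0
  · rw [ind_pos e1]; linarith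
  by_cases e2 : c = 0
  · rw [ind_pos e2]; linarith
  cases e : low t o ξ with
  | zero =>
    rw [e] at e1 a1
    rw [ind_neg (p := ξ (dr u o) = 0) (by rwa [val_dr]), zero_mul]
    linarith
  | succ m =>
    rw [e] at e1 a1
    have e3 : dd t o ξ m = 0 := not_not.1 (Nat.notMem_of_lt_sInf (s := {n | dd t o ξ n ≠ 0})
      (show m < low t o ξ by omega))
    have e4 : low t o (ξ ∘ₗ lp t u φ c) ≤ m := Nat.sInf_le fun q => hφ (funext fun i => by
      have := congrFun q i
      rw [dd_lp, e3] at this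
      simpa [e1, e2] using this)
    rw [wt, if_pos (by omega)]
    have := mul_le_mul_of_nonneg_right (ind_le_one (ξ (dr u o) = 0)) h1.le
    linarith

variable [Finite F] [CharP F 2] [Finite A] {ψ : F → ℝ}

theorem fh_sub (hψ : Chi ψ) {u φ : Fin 6 → F} (h : ∑ i, φ i * u i = 0) (c : F)
    (f : (Fin 6 → A) → ℝ) (ξ : Module.Dual F (Fin 6 → A)) :
    fh ψ (fun x => av fun b : F => f (lp t u φ c x + b • dr u o)) ξ =
      ind (ξ (dr u o) = 0) * fh ψ f (ξ ∘ₗ lp t u φ c) := by
  have key : ∀ b : F, av (fun x => f (lp t u φ c x + b • dr u o) * ψ (ξ x)) =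
      ψ (b * ξ (dr u o)) * fh ψ f (ξ ∘ₗ lp t u φ c) := fun b => by
    have e : ∀ x, lp t u φ c (lp t u φ c x + b • dr u o) + b • dr u o = x := fun x => by
      rw [map_add, lp_lp t h, map_smul, lp_dr t h, add_assoc, two (F := F), add_zero]
    rw [← av_bij (Function.Involutive.bijective (f := fun x => lp t u φ c x + b • dr u o) e), fh,
      ← av_mul]
    refine av_congr fun x => ?_
    rw [e, map_add, hψ.add, map_smul, smul_eq_mul, LinearMap.comp_apply]
    ring
  unfold fh
  simp only [← av_mul']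
  rw [av_comm]
  simp only [key, av_mul', hψ.av_mul]
  rfl

variable [Fintype (Module.Dual F (Fin 6 → A))]

theorem one (hF : FouS) (hψ : Chi ψ) {g : ℝ} (hg : 1 ≤ g) {u φ : Fin 6 → F}
    (h : ∑ i, φ i * u i = 0) (c : F) (f : (Fin 6 → A) → ℝ) :
    av (fun x => f x * av fun b : F => f (lp t u φ c x + b • dr u o)) ≤
      ∑ ξ : Module.Dual F (Fin 6 → A), fh ψ f ξ ^ 2 *
        (ind (ξ (dr u o) = 0) * wt g (low t o ξ) (low t o (ξ ∘ₗ lp t u φ c))) := by
  have e : ∀ ξ : Module.Dual F (Fin 6 → A), (ξ ∘ₗ lp t u φ c) ∘ₗ lp t u φ c = ξ := fun ξ =>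
    LinearMap.ext fun x => congrArg ξ (lp_lp t h c x)
  have e' := (Function.Involutive.bijective
    (f := fun ξ : Module.Dual F (Fin 6 → A) => ξ ∘ₗ lp t u φ c) e).sum_comp fun ξ => fh ψ f ξ ^ 2 *
    (ind (ξ (dr u o) = 0) * wt g (low t o ξ) (low t o (ξ ∘ₗ lp t u φ c)))
  rw [hF F _ ψ hψ]
  refine le_of_mul_le_mul_left ?_ two_pos
  conv_rhs => rw [two_mul]; arg 2; rw [← e']
  rw [← Finset.sum_add_distrib, Finset.mul_sum]
  refine Finset.sum_le_sum fun ξ _ => ?_
  rw [fh_sub t o hψ h, e, LinearMap.comp_apply, lp_dr t h]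
  have := mul_le_mul_of_nonneg_left (wt_am hg (low t o ξ) (low t o (ξ ∘ₗ lp t u φ c)) (fh ψ f ξ)
    (fh ψ f (ξ ∘ₗ lp t u φ c))) (ind_nonneg (ξ (dr u o) = 0))
  linarith

end G3

open G3

theorem g3S (h : FouS) : G3S := by
  intro F A T _ _ _ _ _ _ _ _ t o ψ u φ g hψ hc h1 h2 h3 hg hq f hf
  have : Finite (Module.Dual F (Fin 6 → A)) := DFunLike.finite _
  have := Fintype.ofFinite (Module.Dual F (Fin 6 → A))
  have g0 : 0 < g := by linarith
  have q0 : (0 : ℝ) < Nat.card F := Nat.cast_pos.2 Nat.card_pos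
  have gq : g * (1 / Nat.card F) ≤ 1 / g := by
    rw [mul_one_div, div_le_div_iff₀ q0 g0]
    linarith
  have k1 : ∀ τ, av (fun x => f x * av fun a => f (sub t o (u τ) (φ τ) a x)) ≤
      ∑ ξ : Module.Dual F (Fin 6 → A), fh ψ f ξ ^ 2 *
        (g * ind (∑ i, dd t o ξ (low t o ξ) i * u τ i = 0) + 2 / g) := fun τ => by
    have e : av (fun x => f x * av fun a => f (sub t o (u τ) (φ τ) a x)) = av fun c : F =>
        av fun x => f x * av fun b : F => f (lp t (u τ) (φ τ) c x + b • dr (u τ) o) := by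
      rw [av_comm]
      refine av_congr fun x => ?_
      rw [av_mul, av_prod]
      simp only [sub_eq]
    rw [e]
    refine (av_mono fun c => (one t o h hψ hg (h1 τ) c f).trans (Finset.sum_le_sum fun ξ _ =>
      mul_le_mul_of_nonneg_left (point t o hg ξ (u τ) (h2 τ) c) (sq_nonneg _))).trans ?_
    rw [av_sum]
    refine Finset.sum_le_sum fun ξ _ => ?_
    rw [av_mul, av_add, av_const, av_mul]
    refine mul_le_mul_of_nonneg_left ?_ (sq_nonneg _)
    have := mul_le_mul_of_nonneg_left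
      (pr_le_inv (p := fun c : F => c = 0) fun a b e e' => e.trans e'.symm) g0.le
    have e2 : 2 / g = 1 / g + 1 / g := by ring
    unfold pr at this
    linarith
  refine (av_mono k1).trans ?_
  have e : av (fun x => f x ^ 2) = ∑ ξ : Module.Dual F (Fin 6 → A), fh ψ f ξ ^ 2 := by
    simp only [sq]
    exact h F _ ψ hψ f f
  rw [av_sum, e, Finset.mul_sum]
  refine Finset.sum_le_sum fun ξ _ => ?_
  rw [av_mul, mul_comm]
  by_cases h0 : ξ = 0
  · have : fh ψ f ξ = 0 := by simp only [fh, h0, LinearMap.zero_apply, hψ.zero, mul_one, hf]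
    simp [this]
  refine mul_le_mul_of_nonneg_right ?_ (sq_nonneg _)
  rw [av_add, av_const, av_mul]
  have := mul_le_mul_of_nonneg_left (h3 _ (dd_low t o hc h0)) g0.le
  have e2 : 3 / g = 1 / g + 2 / g := by ring
  unfold pr at this
  linarith

end Pool.Agent.PP.D
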