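import Pool.Agent.MP_13199e_lc.PP.D.Spec

/-! PROJECT PP, block D, row GAIN. -/

set_option autoImplicit false

namespace Pool.Agent.PP.D

namespace Gain

/-- A surjective homomorphism preserves averages. -/
theorem av_hom {H R : Type} [AddCommGroup H] [AddCommGroup R] [Finite H] [Finite R] (ρ : H →+ R)
    (h : Function.Surjective ρ) (f : R → ℝ) : av (fun a => f (ρ a)) = av f := by
  have e : ∀ r, av (fun a => f (r + ρ a)) = av fun a => f (ρ a) := fun r => by
    obtain ⟨b, rfl⟩ := h r
    rw [← av_shift (fun a => f (ρ a)) b]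
    exact av_congr fun a => by rw [map_add, add_comm]
  rw [← av_av_shift f ρ]
  simp only [e, av_const]

variable {Z K : Type} [Finite Z] [AddCommGroup K] [Finite K] {τ : K → Z → Z}

omit [Finite Z] [Finite K] in
theorem bij (h0 : ∀ z, τ 0 z = z) (h1 : ∀ a b z, τ (a + b) z = τ a (τ b z)) (a : K) :
    Function.Bijective (τ a) :=
  Function.bijective_iff_has_inverse.2 ⟨τ (-a), fun z => by rw [← h1, neg_add_cancel, h0],
    fun z => by rw [← h1, add_neg_cancel, h0]⟩

/-- The group average is invisible to an invariant function. -/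
theorem proj (h0 : ∀ z, τ 0 z = z) (h1 : ∀ a b z, τ (a + b) z = τ a (τ b z)) (f G : Z → ℝ)
    (hG : ∀ a z, G (τ a z) = G z) :
    av (fun x => (av fun a => f (τ a x)) * G x) = av fun x => f x * G x := by
  have e : ∀ a, av (fun x => f (τ a x) * G x) = av fun x => f x * G x := fun a => by
    rw [← av_bij (bij h0 h1 a) fun x => f x * G x]
    exact av_congr fun x => by rw [hG]
  simp only [← av_mul']
  rw [av_comm fun x a => f (τ a x) * G x]
  simp only [e, av_const]

theorem proj_sq (h0 : ∀ z, τ 0 z = z) (h1 : ∀ a b z, τ (a + b) z = τ a (τ b z)) (f : Z → ℝ) :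
    av (fun x => (av fun a => f (τ a x)) ^ 2) = av fun x => f x * av fun a => f (τ a x) := by
  simp only [sq]
  refine proj h0 h1 f _ fun b z => ?_
  rw [← av_shift (fun a => f (τ a z)) b]
  exact av_congr fun a => by rw [h1]

end Gain

open Gain in
theorem gainS : GainS := by
  intro Z U H K R _ _ _ _ _ _ _ _ _ _ σ ρ κ lam η d D s0 s1 hρ hκ hl hS hη hD hd hdη
  obtain ⟨E, hE⟩ : ∃ E : U → Z → ℝ, ∀ u y, E u y = av fun h => D (σ u h y) u (ρ u h) :=
    ⟨_, fun _ _ => rfl⟩
  have E0 : ∀ u y, 0 ≤ E u y := fun u y => hE u y ▸ av_nonneg fun _ => (hD _ _ _).1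
  have E1 : ∀ u y, E u y ≤ 1 := fun u y => hE u y ▸ av_le fun _ => (hD _ _ _).2
  have Ed : av (fun u => av (E u)) ≤ d := by
    refine le_of_eq_of_le ?_ hd
    rw [av_prod]
    simp only [av_prod (α := U)]
    rw [av_comm fun z u => av fun r => D z u r]
    refine av_congr fun u => ?_
    rw [av_congr (hE u), av_comm fun y h => D (σ u h y) u (ρ u h), av_comm fun z r => D z u r,
      ← av_hom (ρ u) (hρ u)]
    exact av_congr fun h => av_bij (bij (s0 u) (s1 u) h) fun y => D y u (ρ u h)
  have Ei : ∀ u a y, E u (σ u (κ u a) y) = E u y := fun u a y => by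
    rw [hE, hE, ← av_shift (fun h => D (σ u h y) u (ρ u h)) (κ u a)]
    exact av_congr fun h => by rw [s1, map_add, hκ, add_zero]
  have t0 : ∀ u z, σ u (κ u 0) z = z := fun u z => by rw [map_zero, s0]
  have t1 : ∀ u a b z, σ u (κ u (a + b)) z = σ u (κ u a) (σ u (κ u b) z) := fun u a b z => by
    rw [map_add, s1]
  obtain ⟨S, hS'⟩ : ∃ S : Z → Prop, ∀ v, S v ↔ η ≤ av fun u => E u v := ⟨_, fun _ => Iff.rfl⟩
  rw [pr_congr (q := S) fun v => by rw [hS', av_prod]; simp only [hE]]
  have p0 := pr_nonneg S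
  have d0 : 0 ≤ d := (av_nonneg fun u => av_nonneg (E0 u)).trans Ed
  obtain ⟨f, hf⟩ : ∃ f : Z → ℝ, ∀ x, f x = ind (S x) - pr S := ⟨_, fun _ => rfl⟩
  have f0 : av f = 0 := by
    rw [av_congr hf, av_sub, av_const]
    exact sub_self _
  have f2 : av (fun x => f x ^ 2) ≤ pr S := by
    simp only [hf]
    rw [var_ind]
    nlinarith
  obtain ⟨X, hX⟩ : ∃ X, X = av fun u => av fun x => f x * E u x := ⟨_, rfl⟩
  have a1 : η * pr S ≤ X + pr S * av fun u => av (E u) := by
    have b1 : η * pr S ≤ av fun x => av fun u => ind (S x) * E u x := by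
      rw [pr, ← av_mul]
      refine av_mono fun x => ?_
      rw [av_mul]
      by_cases u : S x
      · rw [ind_pos u, mul_one, one_mul]
        exact (hS' x).1 u
      · rw [ind_neg u, mul_zero, zero_mul]
    rw [av_comm fun x u => ind (S x) * E u x] at b1
    refine b1.trans_eq ?_
    rw [hX, ← av_mul, ← av_add]
    refine av_congr fun u => ?_
    rw [← av_mul, ← av_add]
    exact av_congr fun x => by rw [hf]; ring
  have a2 : X ^ 2 ≤ lam * pr S * d := by
    have b1 := av_cs (fun y : U × Z => av fun a => f (σ y.1 (κ y.1 a) y.2)) fun y => E y.1 y.2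
    rw [av_prod, av_prod, av_prod] at b1
    have b2 : ∀ u, av (fun x => (av fun a => f (σ u (κ u a) x)) * E u x) =
        av fun x => f x * E u x := fun u => proj (t0 u) (t1 u) f _ (Ei u)
    have b3 : ∀ u, av (fun x => (av fun a => f (σ u (κ u a) x)) ^ 2) =
        av fun x => f x * av fun a => f (σ u (κ u a) x) := fun u => proj_sq (t0 u) (t1 u) f
    simp only [b2, b3] at b1
    rw [hX]
    refine b1.trans (mul_le_mul ((hS f f0).trans (mul_le_mul_of_nonneg_left f2 hl))
      ((av_mono fun u => av_mono fun x => ?_).trans Ed)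
      (av_nonneg fun _ => av_nonneg fun _ => sq_nonneg _) (mul_nonneg hl p0))
    nlinarith [E0 u x, E1 u x]
  have a3 : η * pr S / 2 ≤ X := by nlinarith [mul_le_mul_of_nonneg_left (Ed.trans hdη) p0]
  have a4 : (η * pr S / 2) ^ 2 ≤ lam * pr S * d :=
    (pow_le_pow_left₀ (by positivity) a3 2).trans a2
  rw [le_div_iff₀ (by positivity)]
  rcases p0.eq_or_lt with k | k
  · rw [← k, zero_mul]
    positivity
  · refine le_of_mul_le_mul_left ?_ k
    nlinarith

end Pool.Agent.PP.D
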