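import Pool.Agent.MP_13199e_lc.PP.D.Spec

/-! PROJECT PP, block D, row LET: letters that depend on the label are routes. -/

set_option autoImplicit false

namespace Pool.Agent.PP.D

namespace Let

variable {F : Type} [Field F]

def cl (e : Bool) : Mv F → F
  | .lin e' b => if e' = e then b else 0
  | _ => 0

def ct : Mv F → F
  | .tr b => b
  | _ => 0

def cs (s : Fin 5) : Mv F → List (Mv F)
  | .sw s' => bif decide (s' = s) then [.sw s] else []
  | _ => []

def ps (s : Fin 5) : Mv F → Bool
  | .sw s' => decide (s' = s)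
  | _ => false

omit [Field F] in
theorem cs_eq (s : Fin 5) (m : Mv F) : (bif ps s m then [Mv.sw s] else []) = cs s m := by
  cases m <;> rfl

variable {A : Type} [AddCommGroup A] [Module F A] (t : A →ₗ[F] A) (o : A)

theorem lin0 (e : Bool) (x : Fin 6 → A) : mv t o (.lin e 0) x = x := by simp [mv]

theorem lin_add (e : Bool) (a b : F) (x : Fin 6 → A) :
    mv t o (.lin e (a + b)) x = mv t o (.lin e a) (mv t o (.lin e b) x) := by
  simp [mv, add_smul, Pi.single_add, add_comm, add_left_comm]

theorem tr_add (a b : F) (x : Fin 6 → A) :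
    mv t o (.tr (a + b)) x = mv t o (.tr a) (mv t o (.tr b) x) := by
  simp [mv, add_smul, Pi.single_add, add_comm, add_left_comm]

theorem word (m : Mv F) (x : Fin 6 → A) :
    run (mv t o) ([.lin false (cl false m)] ++ [.lin true (cl true m)] ++ [.tr (ct m)] ++ cs 0 m ++
      cs 1 m ++ cs 2 m ++ cs 3 m ++ cs 4 m) x = run (mv t o) [m] x := by
  rcases m with ⟨_ | _, b⟩ | b | s
  · simp [cl, ct, cs, lin0, mv_tr0]
  · simp [cl, ct, cs, lin0, mv_tr0]
  · simp [cl, ct, cs, lin0]
  · fin_cases s <;> simp [cl, ct, cs, lin0, mv_tr0]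

end Let

open Let in
theorem letS (hp : ParS) : LetS := by
  intro F _ _ _ r j n e hr h μ φ hφ hμ
  have h1 := fun b : Bool => hp _ _ F (tow F j) r n e (Mv.lin b)
    (fun k => lin0 (lev F j k).t (lev F j k).o b)
    (fun k => lin_add (lev F j k).t (lev F j k).o b) (fun _ => h _)
    (fun l => cl b (μ l)) φ hφ fun l => by rw [hμ]
  have h2 := hp _ _ F (tow F j) r n e Mv.tr (fun k => mv_tr0 (lev F j k).t (lev F j k).o)
    (fun k => tr_add (lev F j k).t (lev F j k).o) (fun _ => h _)
    (fun l => ct (μ l)) φ hφ fun l => by rw [hμ]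
  have h3 : ∀ s, CW (tow F j) n fun l => cs s (μ l) := fun s => by
    have := h (.sw s) (fun l => ps s (μ l)) φ hφ fun l => by rw [hμ]
    simpa only [CM, cs_eq] using this
  refine ((((((((h1 false).app (h1 true)).app h2).app (h3 0)).app (h3 1)).app (h3 2)).app
    (h3 3)).app (h3 4)).congr
    (fun k z l => word (lev F j k).t (lev F j k).o (μ l) z) |>.mono ?_
  nlinarith [Nat.mul_le_mul_right n hr]

end Pool.Agent.PP.D
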