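import Pool.Agent.MP_13199e_lc.PP.D.Spec

/-! PROJECT PP, block D, row LINK: the change of the type mixes. -/

set_option autoImplicit false

namespace Pool.Agent.PP.D

namespace Link

variable {F : Type} [Field F]

/-- The change of the type along a link. -/
def del (a b : F) : NN F →ₗ[F] VV F where
  toFun D := ![![-(a * D 0), -(a * D 1), a * b * D 1], ![D 0, D 1, -(b * D 1)]]
  map_add' D D' := by
    funext i j
    fin_cases i <;> fin_cases j <;> simp <;> ring
  map_smul' r D := by
    funext i j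
    fin_cases i <;> fin_cases j <;> simp <;> ring

theorem shift (τ : TT F) (N D : NN F) :
    ((ee F).symm (τ, D + N)).1 = ((ee F).symm (τ, N)).1 + del (τ 1) (τ 6) D := by
  funext i j
  fin_cases i <;> fin_cases j <;> simp [ee, del] <;> ring

/-- The matrix units. -/
def eu (i : Fin 2) (j : Fin 3) : VV F := Pi.single i (Pi.single j 1)

theorem del0 (a b : F) : del a b (Pi.single 0 1) = eu 1 0 - a • eu 0 0 := by
  funext i j
  fin_cases i <;> fin_cases j <;> simp [eu, del]

theorem del1 (a b : F) :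
    del a b (Pi.single 1 1) = eu 1 1 - a • eu 0 1 - b • (eu 1 2 - a • eu 0 2) := by
  funext i j
  fin_cases i <;> fin_cases j <;> simp [eu, del, mul_comm]

theorem dual_zero (ξ : Module.Dual F (VV F)) (h : ∀ i j, ξ (eu i j) = 0) : ξ = 0 := by
  ext i j
  exact h i j

variable [Finite F]

theorem line (i : Fin 3) (p : CC F → Prop)
    (h : ∀ (x : CC F) (a b : F), p (x + Pi.single i a) → p (x + Pi.single i b) → a = b) :
    pr p ≤ 1 / (Nat.card F : ℝ) := by
  rw [pr, ← av_av_shift (fun a => ind (p a)) fun b : F => (Pi.single i b : CC F)]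
  exact av_le fun x => pr_le_inv (p := fun b : F => p (x + (Pi.single i b : CC F))) (h x)

theorem aff (u v : F) (h : ¬(u = 0 ∧ v = 0)) :
    pr (fun c : CC F => u - c 1 * v = 0) ≤ 1 / (Nat.card F : ℝ) := by
  refine line 1 _ fun x a b h1 h2 => ?_
  simp only [Pi.add_apply, Pi.single_eq_same] at h1 h2
  by_cases hv : v = 0
  · rw [hv, mul_zero, sub_zero] at h1
    exact absurd ⟨h1, hv⟩ h
  · exact mul_right_cancel₀ hv (by linear_combination h2 - h1)

theorem bias {ψ : F → ℝ} (hψ : Chi ψ) (ξ : Module.Dual F (VV F)) (h : ξ ≠ 0) :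
    av (fun s : CC F × NN F => ψ (ξ (del (s.1 1) (s.1 2) s.2))) ≤ 2 / (Nat.card F : ℝ) := by
  have e : av (fun s : CC F × NN F => ψ (ξ (del (s.1 1) (s.1 2) s.2))) =
      pr fun c : CC F => ξ.comp (del (c 1) (c 2)) = 0 := by
    rw [av_prod]
    exact av_congr fun c => hψ.av_lin (ξ.comp (del (c 1) (c 2)))
  have k : ∀ c : CC F, ξ.comp (del (c 1) (c 2)) = 0 → ξ (eu 1 0) - c 1 * ξ (eu 0 0) = 0 ∧
      ξ (eu 1 1) - c 1 * ξ (eu 0 1) - c 2 * (ξ (eu 1 2) - c 1 * ξ (eu 0 2)) = 0 := fun c hc => by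
    have h0 := LinearMap.congr_fun hc (Pi.single 0 1)
    have h1 := LinearMap.congr_fun hc (Pi.single 1 1)
    rw [LinearMap.comp_apply, del0, LinearMap.zero_apply] at h0
    rw [LinearMap.comp_apply, del1, LinearMap.zero_apply] at h1
    simp only [map_sub, map_smul, smul_eq_mul] at h0 h1
    exact ⟨h0, h1⟩
  have q : (1 : ℝ) / Nat.card F ≤ 2 / Nat.card F :=
    div_le_div_of_nonneg_right one_le_two (Nat.cast_nonneg _)
  rw [e]
  by_cases c0 : ξ (eu 1 0) = 0 ∧ ξ (eu 0 0) = 0
  · by_cases c2 : ξ (eu 1 2) = 0 ∧ ξ (eu 0 2) = 0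
    · have c1 : ¬(ξ (eu 1 1) = 0 ∧ ξ (eu 0 1) = 0) := fun c1 => h (dual_zero ξ fun i j => by
        fin_cases i <;> fin_cases j
        exacts [c0.2, c1.2, c2.2, c0.1, c1.1, c2.1])
      refine (pr_mono fun c hc => ?_).trans ((aff _ _ c1).trans q)
      have := (k c hc).2
      rwa [c2.1, c2.2, mul_zero, sub_zero, mul_zero, sub_zero] at this
    · have b := line 2 (fun c : CC F => ξ (eu 1 2) - c 1 * ξ (eu 0 2) ≠ 0 ∧
          ξ (eu 1 1) - c 1 * ξ (eu 0 1) - c 2 * (ξ (eu 1 2) - c 1 * ξ (eu 0 2)) = 0)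
        fun x a b h1 h2 => by
          simp only [Pi.add_apply, Pi.single_eq_same,
            Pi.single_eq_of_ne (show (1 : Fin 3) ≠ 2 by decide), add_zero] at h1 h2
          exact mul_right_cancel₀ h1.1 (by linear_combination h2.2 - h1.2)
      refine (pr_le_add fun c hc => ?_).trans ((add_le_add (aff _ _ c2) b).trans_eq (by ring))
      by_cases z : ξ (eu 1 2) - c 1 * ξ (eu 0 2) = 0
      exacts [.inl z, .inr ⟨z, (k c hc).2⟩]
  · exact (pr_mono fun c hc => (k c hc).1).trans ((aff _ _ c0).trans q)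

theorem square (f : VV F → ℝ) :
    av (fun τ : TT F => av (fun N => f ((ee F).symm (τ, N)).1) ^ 2) =
      av fun M => f M * av fun s : CC F × NN F => f (M + del (s.1 1) (s.1 2) s.2) := by
  have e1 : ∀ τ : TT F, av (fun N => f ((ee F).symm (τ, N)).1) ^ 2 =
      av fun N => f ((ee F).symm (τ, N)).1 *
        av fun D => f (((ee F).symm (τ, N)).1 + del (τ 1) (τ 6) D) := fun τ => by
    rw [sq, ← av_mul']
    refine av_congr fun N => congrArg _ ?_
    rw [← av_shift (fun D => f ((ee F).symm (τ, D)).1) N]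
    exact av_congr fun D => congrArg f (shift τ N D)
  rw [av_congr e1, ← av_prod fun q : TT F × NN F => f ((ee F).symm q).1 *
    av fun D => f (((ee F).symm q).1 + del (q.1 1) (q.1 6) D), ← av_equiv (ee F), av_prod]
  refine av_congr fun M => ?_
  rw [av_prod, ← av_mul]
  refine av_congr fun c => ?_
  rw [Equiv.symm_apply_apply]
  rfl

end Link

theorem linkS (h : CayS) : LinkS := by
  intro F _ _ ψ hψ m f hf
  have h0 : av (fun M => f M - av f) = 0 := by rw [av_sub, av_const, sub_self]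
  have h1 : av (fun M => (f M - av f) ^ 2) ≤ 1 := av_le fun M => by
    have a1 : 0 ≤ av f := av_nonneg fun M => (hf M).1
    have a2 : av f ≤ 1 := av_le fun M => (hf M).2
    have a3 := hf M
    exact (sq_le_one_iff_abs_le_one _).2 (abs_le.2 ⟨by linarith, by linarith⟩)
  have q : (0 : ℝ) ≤ 2 / Nat.card F := by positivity
  have h2 := h F (VV F) (CC F × NN F) ψ (fun s => Link.del (s.1 1) (s.1 2) s.2) _ hψ q
    (Link.bias hψ) _ h0
  rw [← Link.square fun M => f M - av f] at h2
  refine le_trans ?_ (h2.trans (mul_le_of_le_one_right q h1))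
  refine le_of_le_of_eq ?_ (((av_equiv (((mu m).prodCongr (Equiv.refl (CC F))).trans (ee F))
    fun x => av (fun N => f ((ee F).symm (pT m x.1, N)).1 - av f) ^ 2).trans
      (av_fst fun τ => av (fun N => f ((ee F).symm (pT m τ, N)).1 - av f) ^ 2)).trans
        (av_equiv (pT m) fun τ => av (fun N => f ((ee F).symm (τ, N)).1 - av f) ^ 2))
  rw [av_prod (α := VV F) (β := CC F)]
  refine av_mono fun M => le_trans (le_of_eq ?_) (av_sq_le _)
  refine congrArg (· ^ 2) ?_
  rw [av_prod]
  simp only [av_sub, av_const]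
  rfl

end Pool.Agent.PP.D
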