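import Pool.Agent.MP_13199e_lc.PP.D.Spec

/-! PROJECT PP, block D, row LP: permutations of the labels are routes. -/

set_option autoImplicit false

namespace Pool.Agent.PP.D

open Function

namespace Lp

theorem prod {M Λ I : Type} {T : Tow M Λ} {n : ℕ} (t : I → Λ → Λ) (ls : List (I × (Λ → Bool)))
    (h : ∀ a ∈ ls, Rt T n fun _ y => (y.1, lay t id a y.2)) :
    Rt T (ls.length * n) fun _ y => (y.1, run (lay t id) ls y.2) := by
  induction ls with
  | nil => exact Rt.nil.mono (Nat.zero_le _)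
  | cons a l ih =>
    exact ((h a List.mem_cons_self).comp (ih fun b hb => h b (List.mem_cons_of_mem _ hb))).mono
      (by rw [List.length_cons, Nat.succ_mul, add_comm])

theorem flip : ∀ x : ZMod 2, decide (x + 1 = 1) = !decide (x = 1) := by decide

theorem same : ∀ x y : ZMod 2, decide (x = 1) = decide (y = 1) → x = y := by decide

end Lp

theorem lpS (h : CtS) : LpS := by
  intro F _ _ _ r j e σ
  choose v hv hr using fun q : Fin (j + 1) × Fin 6 × Fin r =>
    (h F j (e.symm (Pi.single q.2.2 1))).1 q.2.1 q.1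
  obtain ⟨N, hN, ι, mono⟩ : ∃ N, N = (j + 1) * (6 * r) ∧
      ∃ ι : Fin N ≃ Fin (j + 1) × Fin 6 × Fin r, ∀ i k, i < k → (ι i).1 ≤ (ι k).1 :=
    ⟨_, rfl, finProdFinEquiv.symm.trans ((Equiv.refl _).prodCongr finProdFinEquiv.symm),
      fun i k h => Nat.div_le_div_right h.le⟩
  have bit : ∀ p q : Fin (j + 1) × Fin 6 × Fin r, p.1 ≤ q.1 → ∀ l : Lab F j,
      e ((l + v p) q.2.1 q.1) q.2.2 = e (l q.2.1 q.1) q.2.2 + if q = p then 1 else 0 := by
    rintro ⟨n, a, s⟩ ⟨n', a', s'⟩ k l
    rw [Pi.add_apply, Pi.add_apply, map_add, Pi.add_apply, hv _ _ _ k]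
    congr 1
    by_cases c : a' = a ∧ n' = n
    · simp [c.1, c.2, Pi.single_apply]
    · rw [if_neg c, if_neg fun k => c (by cases k; exact ⟨rfl, rfl⟩), map_zero]
      rfl
  obtain ⟨ls, l1, l2, l3⟩ := benes N (fun i l => if h : i < N then l + v (ι ⟨i, h⟩) else l)
    (fun i l => if h : i < N then
      decide (e (l (ι ⟨i, h⟩).2.1 (ι ⟨i, h⟩).1) (ι ⟨i, h⟩).2.2 = 1) else false)
    (fun i hi x => by simp only [dif_pos hi, add_assoc, add_self F, add_zero])
    (fun i hi x => by simp only [dif_pos hi, bit _ _ le_rfl, if_pos, Lp.flip])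
    (fun i k a b x => by
      simp only [dif_pos b, dif_pos (a.trans b)]
      rw [bit _ _ (mono _ _ a), if_neg fun c => a.ne' (congrArg Fin.val (ι.injective c)), add_zero])
    (fun x y a => funext fun c => funext fun n => e.injective (funext fun s => by
      have := a _ (ι.symm (n, c, s)).2
      simp only [dif_pos (ι.symm (n, c, s)).2, Fin.eta, Equiv.apply_symm_apply] at this
      exact Lp.same _ _ this)) σ
  refine ((Lp.prod (n := 45 * (j + 1)) _ ls fun a ha => ?_).mono ?_).congr
    fun k z l => Prod.ext rfl (l3 l)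
  · obtain ⟨a1, a2⟩ := l2 a ha
    simp only [dif_pos a1] at a2
    exact (hr _ a.2 a2).congr fun k z l => by simp only [lay, dif_pos a1, id]
  · exact (Nat.mul_le_mul_right _ l1).trans_eq (by rw [hN]; ring)

end Pool.Agent.PP.D
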