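import Pool.Agent.MP_13199e_lc.PP.D.Spec

/-! PROJECT PP, block D, row R4: from one balanced condition to all even conditions. -/

set_option autoImplicit false

namespace Pool.Agent.PP.D

namespace R4

variable {M Λ : Type} [Finite Λ] {χ χ' : Λ → Bool}

theorem half (h : Bal χ) (b : Bool) : 2 * Nat.card {l // χ l = b} = Nat.card Λ := by
  classical
  obtain ⟨φ, hφ⟩ := h
  have e : {l // χ l = b} ≃ {l // ¬χ l = b} :=
    ⟨fun x => ⟨φ x, by rw [(hφ x).2, x.2]; simp⟩,
      fun x => ⟨φ x, by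
        have := x.2
        rw [(hφ x).2]
        revert this
        cases χ x <;> cases b <;> simp⟩,
      fun x => Subtype.ext (hφ x).1, fun x => Subtype.ext (hφ x).1⟩
  rw [← Nat.card_congr (Equiv.sumCompl fun l => χ l = b), Nat.card_sum, ← Nat.card_congr e, two_mul]

theorem perm (h : Bal χ) (h' : Bal χ') : ∃ σ : Equiv.Perm Λ, ∀ l, χ (σ l) = χ' l := by
  have e : ∀ b, Nonempty ({l // χ' l = b} ≃ {l // χ l = b}) := fun b =>
    Finite.card_eq.1 (by have := half h b; have := half h' b; omega)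
  exact ⟨Equiv.ofFiberEquiv fun b => (e b).some, Equiv.ofFiberEquiv_map _⟩

theorem cm {T : Tow M Λ} {m : M} {n n' : ℕ} (hL : LP T n) (h : Bal χ) (hc : CM T n' m χ)
    (h' : Bal χ') : CM T (2 * n + n') m χ' := by
  obtain ⟨σ, hσ⟩ := perm h h'
  unfold CM CW at hc ⊢
  exact ((((hL σ).comp hc).comp (hL σ.symm)).mono (by omega)).congr fun k z l => by simp [hσ]

end R4

theorem r4S : R4S := by
  intro M Λ _ T m n n' χ hm hL h hc P φ hφ hP
  obtain ⟨c, e⟩ := two_col (s := φ) (r := φ) (fun l => (hφ l).1) (fun l => (hφ l).1)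
    (fun l => (hφ l).2) fun l => (hφ l).2
  have b1 : Bal c := ⟨φ, fun l => ⟨(hφ l).1, (e l).1⟩⟩
  have b2 : Bal fun l => xor (c l) (P l) :=
    ⟨φ, fun l => ⟨(hφ l).1, by simp only [(e l).1, hP]; cases c l <;> cases P l <;> rfl⟩⟩
  refine ((CW.app (R4.cm hL h hc b1) (R4.cm hL h hc b2)).mono (by omega)).congr fun k z l => ?_
  cases c l <;> cases P l <;> simp [hm]

end Pool.Agent.PP.D
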