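import Pool.Agent.MP_13199e_lc.PP.D.Spec

/-! PROJECT PP, block D, row R5: from letters to words. -/

set_option autoImplicit false

namespace Pool.Agent.PP.D

namespace R5

theorem words {M Λ : Type} (T : Tow M Λ) (N : ℕ)
    (h : ∀ (μ : Λ → M) φ, Fpf φ → (∀ l, μ (φ l) = μ l) → CW T N fun l => [μ l]) (φ : Λ → Λ)
    (hφ : Fpf φ) (L : ℕ) : ∀ w : Λ → List M, (∀ l, w (φ l) = w l) → (∀ l, (w l).length ≤ L) →
      CW T (L * N) w := by
  induction L with
  | zero =>
    intro w _ hl
    rw [Nat.zero_mul]
    exact CW.nil.congr fun k z l => by rw [List.length_eq_zero_iff.1 (Nat.le_zero.1 (hl l))]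
  | succ L ih =>
    intro w hw hl
    have h1 := h (fun l => (w l).headD T.m0) φ hφ fun l => by rw [hw]
    have h2 := ih (fun l => (w l).tail) (fun l => by rw [hw]) fun l => by
      have := hl l
      rw [List.length_tail]
      omega
    refine ((h1.app h2).mono (by rw [Nat.succ_mul]; omega)).congr fun k z l => ?_
    cases w l with
    | nil => exact T.id0 k z
    | cons a s => rfl

end R5

theorem r5S : R5S := fun _ _ T N _ h hL w b φ hw =>
  Rt.comp (R5.words T N h φ (fun l => ⟨(hw l).1, (hw l).2.1⟩) 2000 w (fun l => (hw l).2.2.1)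
    fun l => (hw l).2.2.2) (hL b)

end Pool.Agent.PP.D
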