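import Pool.Agent.MP_13199e_lc.PP.D.Spec

/-! PROJECT PP, block D: transport of structure. -/

set_option autoImplicit false

namespace Pool.Agent.PP.D

open Function

namespace Tr

section geo

variable {r : ℕ} {V C N B R M : Type} [AddCommGroup B] [AddCommGroup R]
  (G : PGeo r V C N B R M) (eV : V ≃ Bv (6 * r)) (eC : C ≃ Bv (3 * r)) (eN : N ≃ Bv (2 * r))
  (eB : B ≃+ Bv (16 * r)) (eR : R ≃+ Bv (14 * r))

/-- The clouds over bit vectors. -/
def geo : Geo r M where
  tw m := ((eV.prodCongr (eC.prodCongr eN)).symm.trans (G.tw m)).trans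
    (eV.prodCongr (eC.prodCongr eN))
  A m u := eB.toAddMonoidHom.comp
    ((G.A m ((eV.prodCongr (eC.prodCongr eN)).symm u)).comp eB.symm.toAddMonoidHom)
  ro m c := eR.toAddMonoidHom.comp ((G.ro m (eC.symm c)).comp eB.symm.toAddMonoidHom)
  wa a h := G.wa (eV.symm a) (eB.symm h)
  wc m a ρ := G.wc m (eV.symm a) (eR.symm ρ)
  la _ _ := G.la _ _
  lc _ _ _ := G.lc _ _ _
  link m F hF := by
    refine le_of_eq_of_le ?_ (G.link m (fun a => F (eV a)) fun a => hF _)
    rw [← av_equiv eV, av_equiv eV F]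
    refine av_congr fun a => ?_
    rw [← av_equiv (eC.prodCongr eN)]
    simp [Prod.map]

theorem geo_ok {Z : Type} {mv : M → Z → Z} (h : G.Ok mv) : (geo G eV eC eN eB eR).Ok mv where
  zero a z := by
    show run mv (G.wa _ (eB.symm 0)) z = z
    rw [map_zero, h.zero]
  add a x y z := by
    show run mv (G.wa _ (eB.symm (x + y))) z = _
    rw [map_add, h.add]
    rfl
  key m u x z := by
    have := h.key m ((eV.prodCongr (eC.prodCongr eN)).symm u) (eB.symm x) z
    simpa [geo] using this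
  gain m D g η d h1 h2 h3 h4 h5 h6 := by
    rw [← av_equiv ((Equiv.refl Z).prodCongr (eV.prodCongr (eC.prodCongr eR.toEquiv)))] at h5
    refine le_of_eq_of_le (pr_congr fun v => ?_)
      (h.gain m (fun z a c ρ => D z (eV a) (eC c) (eR ρ)) g η d h1 h2 h3
        (fun _ _ _ _ => h4 _ _ _ _) h5 h6)
    rw [← av_equiv (eV.prodCongr (eC.prodCongr eB.toEquiv))]
    simp [geo]

end geo

section tow

variable {M Λ Λ' : Type} (T : Tow M Λ) (e : Λ ≃ Λ')

/-- The tower with renamed labels. -/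
def tow : Tow M Λ' where
  Z := T.Z
  fin := T.fin
  one := T.one
  mv := T.mv
  inj := T.inj
  m0 := T.m0
  id0 := T.id0
  sp k := (T.sp k).trans ((Equiv.refl _).prodCongr e)
  cw m l := T.cw m (e.symm l)
  β m l := e (T.β m (e.symm l))
  self k m y := by simp [T.self]

theorem sp_eq (k : ℕ) (y : T.Z (k + 1)) :
    (tow T e).sp k y = ((T.sp k y).1, e (T.sp k y).2) := rfl

theorem run_map {A A' Z : Type} (f : A → A') (mv : A' → Z → Z) (l : List A) (z : Z) :
    run mv (l.map f) z = run (fun a => mv (f a)) l z := List.foldl_map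

theorem lay_eq (k : ℕ) (a : M × (Λ → Bool)) :
    lay (T.mv (k + 1)) (fun y => e (T.sp k y).2) (a.1, fun l => a.2 (e.symm l)) =
      lay (T.mv (k + 1)) (fun y => (T.sp k y).2) a := by
  funext z
  simp [lay]

theorem route (n : ℕ) (h : T.Route n) : (tow T e).Route n := by
  intro w b φ hw
  obtain ⟨ls, h1, h2⟩ := h (fun l => w (e l)) ((e.trans b).trans e.symm) (fun l => e.symm (φ (e l)))
    fun l => by
      obtain ⟨a1, a2, a3, a4⟩ := hw (e l)
      exact ⟨by simp [a1], fun k => a2 (e.symm_apply_eq.1 k), by simp [a3], a4⟩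
  refine ⟨ls.map fun a => (a.1, fun l => a.2 (e.symm l)), by rwa [List.length_map],
    fun k => ⟨fun a ha => ?_, fun y => ?_⟩⟩
  · obtain ⟨a, ha', rfl⟩ := List.mem_map.1 ha
    exact (lay_eq T e k a).symm ▸ (h2 k).1 a ha'
  · have e1 : run (lay ((tow T e).mv (k + 1)) fun y => ((tow T e).sp k y).2)
        (ls.map fun a => (a.1, fun l => a.2 (e.symm l))) y =
        run (lay (T.mv (k + 1)) fun y => (T.sp k y).2) ls y :=
      (run_map _ _ _ _).trans (congrArg (fun f => run f ls y) (funext (lay_eq T e k)))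
    rw [e1, sp_eq, (h2 k).2 y]
    exact Prod.ext rfl (e.apply_symm_apply _)

theorem org_eq (l : Λ) (k : ℕ) : (tow T e).org (e l) k = T.org l k := by
  induction k with
  | zero => rfl
  | succ k ih =>
    show (T.sp k).symm ((tow T e).org (e l) k, e.symm (e l)) = (T.sp k).symm (T.org l k, l)
    rw [ih, e.symm_apply_apply]

theorem tree (h : T.Tree) : (tow T e).Tree := by
  obtain ⟨a, b, w, l, h1, h2⟩ := h
  refine ⟨a, b, w, e l, h1, fun k => ⟨(h2 k).1, (h2 k).2.1, ?_⟩⟩
  rw [org_eq]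
  exact (h2 k).2.2

end tow

end Tr

theorem trgS : TrgS := fun _ _ _ _ _ _ _ _ _ G eV eC eN eB eR =>
  ⟨Tr.geo G eV eC eN eB eR, fun _ _ => Tr.geo_ok G eV eC eN eB eR⟩

theorem trlS : TrlS := fun _ _ _ T e =>
  ⟨Tr.tow T e, fun _ _ h => h, Tr.route T e, Tr.tree T e⟩

end Pool.Agent.PP.D
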