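import Pool.Agent.MP_13199e_lc.PP.D.Spec

/-! PROJECT PP, block D: two commuting binary trees. -/

set_option autoImplicit false
set_option linter.unusedSectionVars false

namespace Pool.Agent.PP.D

namespace Tree

open Polynomial

variable {F : Type} [Field F] {A : Type} [AddCommGroup A] [Module F A] (t : A →ₗ[F] A) (o : A)

/-- The word of one step on the coordinates `p`, `q`. -/
def aw (p q : Fin 6) (γ : F) : List (Mv F) := ew q p false 1 ++ ew p q true γ

theorem aw_len (p q : Fin 6) (γ : F) : (aw p q γ).length ≤ 100 := by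
  have := ew_len q p false (1 : F)
  have := ew_len p q true γ
  rw [aw, List.length_append]
  omega

theorem run_aw {p q : Fin 6} (h : p ≠ q) (γ : F) (x : Fin 6 → A) :
    run (mv t o) (aw p q γ) x = x + Pi.single q (x p) + Pi.single p (γ • t (x q + x p)) := by
  rw [aw, run_append, run_ew t o h.symm, run_ew t o h]
  simp

/-- The coefficient of a bit. -/
def cf (b : F) (c : Bool) : F := bif c then b else 1

/-- The polynomials of a list of bits. -/
noncomputable def pol (b : F) (l : List Bool) : F[X] × F[X] :=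
  l.foldr (fun c z => (z.1 + C (cf b c) * (X * (z.2 + z.1)), z.2 + z.1)) (1, 0)

theorem pol_cons (b : F) (c : Bool) (l : List Bool) : pol b (c :: l) =
    ((pol b l).1 + C (cf b c) * (X * ((pol b l).2 + (pol b l).1)), (pol b l).2 + (pol b l).1) :=
  rfl

theorem cf_ne {b : F} (hb : b ≠ 0) (c : Bool) : cf b c ≠ 0 := by
  cases c
  exacts [one_ne_zero, hb]

theorem pol_deg {b : F} (hb : b ≠ 0) (l : List Bool) :
    (pol b l).1.degree = (l.length : ℕ) ∧ (pol b l).2.degree < (l.length : ℕ) := by
  induction l with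
  | nil => exact ⟨degree_one, by simp [pol]⟩
  | cons c l ih =>
    have h1 : ((pol b l).2 + (pol b l).1).degree = (l.length : ℕ) := by
      rw [degree_add_eq_right_of_degree_lt (by rw [ih.1]; exact ih.2), ih.1]
    have h2 : (C (cf b c) * (X * ((pol b l).2 + (pol b l).1))).degree =
        ((l.length + 1 : ℕ) : WithBot ℕ) := by
      rw [degree_C_mul (cf_ne hb c), degree_mul, degree_X, h1, add_comm]
      rfl
    have h3 : ((l.length : ℕ) : WithBot ℕ) < (l.length + 1 : ℕ) :=
      Nat.cast_lt.2 (Nat.lt_succ_self _)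
    rw [pol_cons, List.length_cons]
    exact ⟨by rw [degree_add_eq_right_of_degree_lt (by rw [ih.1, h2]; exact h3), h2], h1 ▸ h3⟩

theorem pol_inj {b : F} (hb : b ≠ 0) (hb' : b ≠ 1) (l l' : List Bool) (h : pol b l = pol b l') :
    l = l' := by
  have len : ∀ l l' : List Bool, pol b l = pol b l' → l.length = l'.length := fun l l' h => by
    have := (pol_deg hb l).1
    rw [h, (pol_deg hb l').1] at this
    exact (Nat.cast_injective this).symm
  induction l generalizing l' with
  | nil => exact (List.length_eq_zero_iff.1 (len _ _ h).symm).symm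
  | cons c l ih =>
    cases l' with
    | nil => exact absurd (len _ _ h) (by simp)
    | cons c' l' =>
      have e0 : l.length = l'.length := by simpa using len _ _ h
      rw [pol_cons, pol_cons, Prod.mk.injEq] at h
      obtain ⟨e1, e2⟩ := h
      rw [← e2] at e1
      have d1 := pol_deg hb l
      have d2 := pol_deg hb l'
      have h3 : ((l.length : ℕ) : WithBot ℕ) < (l.length + 1 : ℕ) :=
        Nat.cast_lt.2 (Nat.lt_succ_self _)
      have h4 : ((pol b l).2 + (pol b l).1).coeff l.length ≠ 0 :=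
        coeff_ne_zero_of_eq_degree (by
          rw [degree_add_eq_right_of_degree_lt (by rw [d1.1]; exact d1.2), d1.1])
      have h5 := congrArg (fun p => coeff p (l.length + 1)) e1
      simp only [coeff_add (pol b l).1, coeff_add (pol b l').1, coeff_C_mul, coeff_X_mul] at h5
      rw [coeff_eq_zero_of_degree_lt (p := (pol b l).1) (by rw [d1.1]; exact h3),
        coeff_eq_zero_of_degree_lt (p := (pol b l').1) (by rw [d2.1, ← e0]; exact h3), zero_add,
        zero_add] at h5
      have h6 := mul_right_cancel₀ h4 h5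
      have h7 : c = c' := by
        cases c <;> cases c'
        exacts [rfl, absurd h6.symm hb', absurd h6 hb', rfl]
      subst h7
      have h8 := add_right_cancel e1
      rw [h8] at e2
      rw [ih l' (Prod.ext h8 (add_right_cancel e2))]

theorem fold_aw {p q : Fin 6} (h : p ≠ q) (b : F) (x : Fin 6 → A) (hp : x p = o) (hq : x q = 0)
    (l : List Bool) :
    l.foldr (fun c y => run (mv t o) (aw p q (cf b c)) y) x p = aeval t (pol b l).1 o ∧
    l.foldr (fun c y => run (mv t o) (aw p q (cf b c)) y) x q = aeval t (pol b l).2 o ∧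
    ∀ s, s ≠ p → s ≠ q → l.foldr (fun c y => run (mv t o) (aw p q (cf b c)) y) x s = x s := by
  induction l with
  | nil => exact ⟨by simpa [pol] using hp, by simpa [pol] using hq, fun _ _ _ => rfl⟩
  | cons c l ih =>
    rw [List.foldr_cons, run_aw t o h, pol_cons]
    refine ⟨?_, ?_, fun s h1 h2 => ?_⟩
    · simp [h, ih.1, ih.2.1, Module.algebraMap_end_apply]
    · simp [h.symm, ih.1, ih.2.1]
    · simp [h1, h2, ih.2.2 s h1 h2]

theorem eq_of_ind {k : ℕ} (hI : Ind t o (k + 1)) {P Q : F[X]} (hP : P.degree ≤ k)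
    (hQ : Q.degree ≤ k) (h : aeval t P o = aeval t Q o) : P = Q :=
  sub_eq_zero.1 (hI _ (Nat.lt_succ_of_le (natDegree_le_iff_degree_le.2
    ((degree_sub_le _ _).trans (max_le hP hQ)))) (by rw [map_sub, LinearMap.sub_apply, h, sub_self]))

theorem bits_eq {k : ℕ} (hI : Ind t o (k + 1)) {b : F} (hb : b ≠ 0) (hb' : b ≠ 1) {u u' : ℕ}
    (hu : u < 2 ^ k) (hu' : u' < 2 ^ k)
    (h1 : aeval t (pol b u.bits).1 o = aeval t (pol b u'.bits).1 o)
    (h2 : aeval t (pol b u.bits).2 o = aeval t (pol b u'.bits).2 o) : u = u' := by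
  have key : ∀ n : ℕ, n < 2 ^ k →
      (pol b n.bits).1.degree ≤ k ∧ (pol b n.bits).2.degree ≤ k := fun n hn => by
    have a : ((n.bits.length : ℕ) : WithBot ℕ) ≤ k :=
      Nat.cast_le.2 (by rw [Nat.size_eq_bits_len]; exact Nat.size_le.2 hn)
    exact ⟨(pol_deg hb _).1.le.trans a, (pol_deg hb _).2.le.trans a⟩
  have e := pol_inj hb hb' _ _ (Prod.ext (eq_of_ind t o hI (key u hu).1 (key u' hu').1 h1)
    (eq_of_ind t o hI (key u hu).2 (key u' hu').2 h2))
  refine Nat.digits.injective 2 ?_
  rw [Nat.digits_two_eq_bits, Nat.digits_two_eq_bits, e]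

/-- The words of the two trees. -/
def aa (b : F) (i c : Bool) : List (Mv F) := bif i then aw 2 3 (cf b c) else aw 0 1 (cf b c)

theorem comm (b : F) (c d : Bool) (z : Fin 6 → A) :
    run (mv t o) (aa b false c) (run (mv t o) (aa b true d) z) =
      run (mv t o) (aa b true d) (run (mv t o) (aa b false c) z) := by
  simp only [aa, cond_true, cond_false, run_aw t o (show (0 : Fin 6) ≠ 1 by decide),
    run_aw t o (show (2 : Fin 6) ≠ 3 by decide)]
  funext s
  fin_cases s <;> simp

theorem coord (b : F) (u v : ℕ) (y : Fin 6 → A) (hy : y = vtx (mv t o) (aa b false) u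
      (vtx (mv t o) (aa b true) v (run (mv t o) (tl 0 1 ++ tl 2 1) 0))) :
    y 0 = aeval t (pol b u.bits).1 o ∧ y 1 = aeval t (pol b u.bits).2 o ∧
      y 2 = aeval t (pol b v.bits).1 o ∧ y 3 = aeval t (pol b v.bits).2 o := by
  obtain ⟨x, hx⟩ : ∃ x, x = run (mv t o) (tl 0 1 ++ tl 2 1) 0 := ⟨_, rfl⟩
  rw [← hx] at hy
  rw [run_append, run_tl, run_tl] at hx
  obtain ⟨a1, a2, a3⟩ := fold_aw t o (show (2 : Fin 6) ≠ 3 by decide) b x (by simp [hx])
    (by simp [hx]) v.bits
  obtain ⟨b1, b2, b3⟩ := fold_aw t o (show (0 : Fin 6) ≠ 1 by decide) b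
    (vtx (mv t o) (aa b true) v x) ((a3 0 (by decide) (by decide)).trans (by simp [hx]))
    ((a3 1 (by decide) (by decide)).trans (by simp [hx])) u.bits
  subst hy
  exact ⟨b1, b2, (b3 2 (by decide) (by decide)).trans a1, (b3 3 (by decide) (by decide)).trans a2⟩

theorem org_zero [Finite F] [CharP F 2] (j k : ℕ) :
    (tow F j).org 0 k = (0 : Fin 6 → (lev F j k).A) := by
  induction k with
  | zero => rfl
  | succ k ih =>
    show ((tow F j).sp k).symm ((tow F j).org 0 k, 0) = _
    rw [ih]
    rfl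

end Tree

open _root_.Pool.Agent.PP.D.Tree in
theorem treeS : TreeS := by
  intro F _ _ _ j b hb hb' hI
  refine ⟨aa b, fun i c => (aa b i c).reverse, tl 0 1 ++ tl 2 1, 0, fun i c => ?_, fun k =>
    ⟨fun i c z => rev_run _ _ _ z, fun c d z => comm _ _ b c d z,
      fun u v u' v' hu hv hu' hv' h => ?_⟩⟩
  · rw [List.length_reverse, and_self]
    cases i <;> exact aw_len _ _ _
  · rw [org_zero] at h
    obtain ⟨a1, a2, a3, a4⟩ := coord (lev F j (k + 1)).t (lev F j (k + 1)).o b u v _ rfl
    obtain ⟨b1, b2, b3, b4⟩ := coord (lev F j (k + 1)).t (lev F j (k + 1)).o b u' v' _ h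
    exact ⟨bits_eq _ _ (hI (k + 1)) hb hb' hu hu' (a1.symm.trans b1) (a2.symm.trans b2),
      bits_eq _ _ (hI (k + 1)) hb hb' hv hv' (a3.symm.trans b3) (a4.symm.trans b4)⟩

end Pool.Agent.PP.D
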