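import Pool.Agent.MP_13199e_lc.PP.D.Spec

/-! PROJECT PP, block D, row WORD: words for the group. -/

set_option autoImplicit false

namespace Pool.Agent.PP.D

namespace Word

variable {F : Type}

/-- The change of coordinates. -/
def eW (M : VV F) : List (Mv F) :=
  ew 3 1 false (M 0 0) ++ ew 4 1 false (M 0 1) ++ ew 5 1 false (M 0 2) ++
    ew 3 2 false (M 1 0) ++ ew 4 2 false (M 1 1) ++ ew 5 2 false (M 1 2)

/-- An affine form is added to the coordinate `a`. -/
def lW (a : Fin 6) (c : Fin 4 → F) : List (Mv F) :=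
  ew a 3 true (c 0) ++ ew a 4 true (c 1) ++ ew a 5 true (c 2) ++ tl a (c 3)

theorem eW_len (M : VV F) : (eW M).length ≤ 90 := by
  have := fun a b c => ew_len (F := F) a b false c
  simp only [eW, List.length_append]
  grind

theorem lW_len (a : Fin 6) (c : Fin 4 → F) : (lW a c).length ≤ 60 := by
  have := fun b c => ew_len (F := F) a b true c
  have := tl_len a (c 3)
  simp only [lW, List.length_append]
  grind

variable [Field F] {A : Type} [AddCommGroup A] [Module F A] (t : A →ₗ[F] A) (o : A)

theorem run_eW (M : VV F) (x : Fin 6 → A) : run (mv t o) (eW M) x =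
    ![x 0, x 1, x 2, x 3 + M 0 0 • x 1 + M 1 0 • x 2, x 4 + M 0 1 • x 1 + M 1 1 • x 2,
      x 5 + M 0 2 • x 1 + M 1 2 • x 2] := by
  simp (disch := decide) only [eW, run_append, run_ew]
  funext a
  fin_cases a <;> simp

theorem run_lW {a : Fin 6} (h : a ≠ 3 ∧ a ≠ 4 ∧ a ≠ 5) (c : Fin 4 → F) (x : Fin 6 → A) :
    run (mv t o) (lW a c) x =
      x + Pi.single a (c 0 • t (x 3) + c 1 • t (x 4) + c 2 • t (x 5) + c 3 • o) := by
  simp only [lW, run_append, run_ew t o h.1, run_ew t o h.2.1, run_ew t o h.2.2, run_tl,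
    Pi.add_apply, Pi.single_eq_of_ne h.2.1.symm, Pi.single_eq_of_ne h.2.2.symm, add_zero, te_true,
    Pi.single_add, add_assoc]

/-- The word of `h` for the type zero. -/
def mW (h : BB F) : List (Mv F) :=
  ew 0 1 true (-1) ++ lW 1 (h 1) ++ ew 0 1 true 1 ++ lW 1 (h 2 - h 1) ++ lW 2 (h 3) ++ lW 0 (h 0)

theorem mW_len (h : BB F) : (mW h).length ≤ 270 := by
  have := fun a c => lW_len (F := F) a c
  have := fun c => ew_len (F := F) 0 1 true c
  simp only [mW, List.length_append]
  grind

theorem run_mW (h : BB F) (x : Fin 6 → A) : run (mv t o) (mW h) x =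
    ![x 0 + (el t o 0 x (h 0) + t (el t o 0 x (h 1))), x 1 + el t o 0 x (h 2),
      x 2 + el t o 0 x (h 3), x 3, x 4, x 5] := by
  simp (disch := decide) only [mW, run_append, run_ew, run_lW]
  funext a
  fin_cases a <;> simp [el, ph] <;> module

end Word

open Word in
theorem wordS : WordS := fun F _ => by
  refine ⟨fun M h => eW (-M) ++ mW h ++ eW M, fun M h => ?_, fun A _ _ t o M h x => ?_⟩
  · have := eW_len M
    have := eW_len (-M)
    have := mW_len h
    simp only [List.length_append]
    omega
  · simp only [run_append, run_mW, run_eW]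
    funext a
    fin_cases a <;> simp [act, el, ph] <;> module

end Pool.Agent.PP.D
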