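import Pool.Agent.MP_13199e_lc.PP.D.Asm
import Pool.Agent.MP_13199e_lc.PP.D.Alg
import Pool.Agent.MP_13199e_lc.PP.D.Cem
import Pool.Agent.MP_13199e_lc.PP.D.Ct
import Pool.Agent.MP_13199e_lc.PP.D.Cyc
import Pool.Agent.MP_13199e_lc.PP.D.Four
import Pool.Agent.MP_13199e_lc.PP.D.G3
import Pool.Agent.MP_13199e_lc.PP.D.Gain
import Pool.Agent.MP_13199e_lc.PP.D.Let
import Pool.Agent.MP_13199e_lc.PP.D.Link
import Pool.Agent.MP_13199e_lc.PP.D.Lp
import Pool.Agent.MP_13199e_lc.PP.D.Par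
import Pool.Agent.MP_13199e_lc.PP.D.R4
import Pool.Agent.MP_13199e_lc.PP.D.R5
import Pool.Agent.MP_13199e_lc.PP.D.Tr
import Pool.Agent.MP_13199e_lc.PP.D.Tree
import Pool.Agent.MP_13199e_lc.PP.D.Word

/-! PROJECT PP, block D: the geometry. -/

namespace Pool.Agent.PP

open D

theorem geoS : GeoS :=
  geo_of (linkS cayS) (g3S fouS) uniS gainS g1aS g1bS wordS cycS treeS (lpS ctS) r5S
    (cemS r4S parS ctS) (letS parS) trgS trlS

end Pool.Agent.PP
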