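import Pool.Agent.MP_13199e_lc.PP.D.Spec

/-! PROJECT PP, block D, row PAR: a coarse move with a parameter that depends on the label. -/

set_option autoImplicit false

namespace Pool.Agent.PP.D

namespace Par

theorem sum_bits {r : ℕ} (v : Bv r) :
    ∑ s : Fin r, (bif decide (v s = 1) then (Pi.single s 1 : Bv r) else 0) = v := by
  have h : ∀ a : ZMod 2, a = 0 ∨ a = 1 := by decide
  conv_rhs => rw [← Finset.univ_sum_single v]
  refine Finset.sum_congr rfl fun s _ => ?_
  rcases h (v s) with e | e <;> simp [e]

end Par

theorem parS : ParS := by
  intro M Λ G T _ r n e x h0 hadd hce c φ hφ hc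
  let b : Fin r → G := fun s => e.symm (Pi.single s 1)
  let P : Fin r → Λ → Bool := fun s l => decide (e (c l) s = 1)
  have key : ∀ S : Finset (Fin r),
      CW T (S.card * n) fun l => [x (∑ s ∈ S, bif P s l then b s else 0)] := by
    intro S
    induction S using Finset.induction_on with
    | empty =>
      refine (CW.nil.congr fun k z l => ?_).mono (by simp)
      simp only [Finset.sum_empty, run_cons, run_nil, h0]
    | insert s S hs ih =>
      have h1 : CM T n (x (b s)) (P s) := hce (b s) (P s) φ hφ fun l => by simp only [P, hc]
      refine ((CW.app ih h1).congr fun k z l => ?_).mono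
        (by rw [Finset.card_insert_of_notMem hs, add_mul, one_mul])
      rw [Finset.sum_insert hs, run_append]
      cases P s l
      · simp only [cond_false, zero_add, run_nil]
      · simp only [cond_true, run_cons, run_nil, hadd]
  refine ((key Finset.univ).congr fun k z l => ?_).mono (by simp)
  have : (∑ s : Fin r, bif P s l then b s else 0) = c l := by
    apply e.injective
    rw [map_sum, ← Par.sum_bits (e (c l))]
    refine Finset.sum_congr rfl fun s _ => ?_
    simp only [P, b]
    cases decide (e (c l) s = 1) <;> simp
  rw [this]

end Pool.Agent.PP.D
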