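import Pool.Agent.MP_13199e_lc.PP.D.Base
import Pool.Agent.MP_13199e_lc.PP.D.Benes

/-! PROJECT PP, block D: the statements of the rows. -/

set_option autoImplicit false

namespace Pool.Agent.PP.D

/-- FOU: the formula of Plancherel. -/
def FouS : Prop := ∀ (F V : Type) [Field F] [Finite F] [AddCommGroup V] [Module F V] [Finite V]
  [Fintype (Module.Dual F V)] (ψ : F → ℝ), Chi ψ → ∀ f g : V → ℝ,
    av (fun x => f x * g x) = ∑ ξ : Module.Dual F V, fh ψ f ξ * fh ψ g ξ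

/-- CAY: Cayley graphs. -/
def CayS : Prop := ∀ (F V S : Type) [Field F] [Finite F] [AddCommGroup V] [Module F V] [Finite V]
  [Finite S] [Nonempty S] (ψ : F → ℝ) (γ : S → V) (β : ℝ), Chi ψ → 0 ≤ β →
  (∀ ξ : Module.Dual F V, ξ ≠ 0 → av (fun s => ψ (ξ (γ s))) ≤ β) → ∀ f : V → ℝ, av f = 0 →
    av (fun x => f x * av fun s => f (x + γ s)) ≤ β * av fun x => f x ^ 2

/-- LINK. -/
def LinkS : Prop := ∀ (F : Type) [Field F] [Finite F] (ψ : F → ℝ), Chi ψ → ∀ (m : Mv F)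
  (f : VV F → ℝ), (∀ M, 0 ≤ f M ∧ f M ≤ 1) →
    av (fun M => (av (fun u => f (tw m (M, u)).1) - av f) ^ 2) ≤ 2 / Nat.card F

/-- G3: the spectral bound for the small groups. -/
def G3S : Prop := ∀ (F A T : Type) [Field F] [Finite F] [CharP F 2] [AddCommGroup A] [Module F A]
  [Finite A] [Finite T] [Nonempty T] (t : A →ₗ[F] A) (o : A) (ψ : F → ℝ) (u φ : T → Fin 6 → F)
  (g : ℝ), Chi ψ → Cyc t o → (∀ τ, ∑ i, φ τ i * u τ i = 0) → (∀ τ, φ τ ≠ 0) →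
  (∀ w : Fin 6 → F, w ≠ 0 → pr (fun τ => ∑ i, w i * u τ i = 0) ≤ 1 / Nat.card F) → 1 ≤ g →
  g ^ 2 ≤ Nat.card F → Spc (fun τ a => sub t o (u τ) (φ τ) a) (3 / g)

/-- UNI: the directions are equidistributed. -/
def UniS : Prop := ∀ (F : Type) [Field F] [Finite F],
  (∀ τ : TT F, ∑ i, ff τ i * uu τ i = 0 ∧ ff τ ≠ 0) ∧
  ∀ w : Fin 6 → F, w ≠ 0 → pr (fun τ : TT F => ∑ i, w i * uu τ i = 0) ≤ 1 / Nat.card F

/-- GAIN. -/
def GainS : Prop := ∀ (Z U H K R : Type) [Finite Z] [Nonempty Z] [Finite U] [Nonempty U]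
  [AddCommGroup H] [AddCommGroup K] [AddCommGroup R] [Finite H] [Finite K] [Finite R]
  (σ : U → H → Z → Z) (ρ : U → H →+ R) (κ : U → K →+ H) (lam η d : ℝ) (D : Z → U → R → ℝ),
  (∀ u z, σ u 0 z = z) → (∀ u a b z, σ u (a + b) z = σ u a (σ u b z)) →
  (∀ u, Function.Surjective (ρ u)) → (∀ u a, ρ u (κ u a) = 0) → 0 ≤ lam →
  Spc (fun u a => σ u (κ u a)) lam → 0 < η → (∀ z u r, 0 ≤ D z u r ∧ D z u r ≤ 1) →
  av (fun x : Z × U × R => D x.1 x.2.1 x.2.2) ≤ d → d ≤ η / 2 →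
    pr (fun v => η ≤ av fun x : U × H => D (σ x.1 x.2 v) x.1 (ρ x.1 x.2)) ≤ 4 * lam * d / η ^ 2

/-- G1A: the action of the group. -/
def G1aS : Prop := ∀ (F A : Type) [Field F] [AddCommGroup A] [Module F A] (t : A →ₗ[F] A) (o : A)
  (M : VV F) (x : Fin 6 → A), act t o M 0 x = x ∧
  (∀ h h', act t o M (h + h') x = act t o M h (act t o M h' x)) ∧
  ∀ c a, act t o M (emb c a) x = sub t o (uu (ee F (M, c)).1) (ff (ee F (M, c)).1) a x

/-- G1B: moves against the group. -/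
def G1bS : Prop := ∀ (F A : Type) [Field F] [AddCommGroup A] [Module F A] (t : A →ₗ[F] A) (o : A)
  (m : Mv F) (x : Fin 6 → A), run (mv t o) (pw m) (run (mv t o) (pw m) x) = x ∧
  (∀ M h, run (mv t o) (pw m) (mv t o m (act t o M h x)) =
    act t o (mu m M) (LL m h) (run (mv t o) (pw m) (mv t o m x))) ∧
  ∀ τ a, run (mv t o) (pw m) (sub t o (uu τ) (ff τ) a x) =
    sub t o (uu (pT m τ)) (ff (pT m τ)) a (run (mv t o) (pw m) x)

/-- WORD: words for the group. -/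
def WordS : Prop := ∀ (F : Type) [Field F], ∃ wa : VV F → BB F → List (Mv F),
  (∀ M h, (wa M h).length ≤ 900) ∧ ∀ (A : Type) [AddCommGroup A] [Module F A] (t : A →ₗ[F] A)
    (o : A) M h x, run (mv t o) (wa M h) x = act t o M h x

/-- CYC: the levels are cyclic modules of large length. -/
def CycS : Prop := ∀ (F : Type) [Field F] [Finite F] (j k : ℕ),
  Cyc (lev F j k).t (lev F j k).o ∧ Ind (lev F j k).t (lev F j k).o k

/-- TREE. -/
def TreeS : Prop := ∀ (F : Type) [Field F] [Finite F] [CharP F 2] (j : ℕ) (b : F), b ≠ 0 → b ≠ 1 →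
  (∀ k, Ind (lev F j k).t (lev F j k).o k) → (tow F j).Tree

/-- CT: conditional translations. -/
def CtS : Prop := ∀ (F : Type) [Field F] [Finite F] [CharP F 2] (j : ℕ) (b : F),
  (∀ (a : Fin 6) (n : Fin (j + 1)), ∃ v : Lab F j,
    (∀ c i, n ≤ i → v c i = if c = a ∧ i = n then b else 0) ∧
    ∀ P : Lab F j → Bool, (∀ l, P (l + v) = P l) →
      Rt (tow F j) (45 * (j + 1)) fun _ y => (y.1, bif P y.2 then y.2 + v else y.2)) ∧
  ∃ v : Lab F j, v 5 = 0 ∧ ∀ P : Lab F j → Bool, (∀ l, P (l + v) = P l) →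
    Rt (tow F j) (45 * (j + 1)) fun k y =>
      bif P y.2 then ((tow F j).mv k (.tr b) y.1, y.2 + v) else y

/-- LP: permutations of the labels. -/
def LpS : Prop := ∀ (F : Type) [Field F] [Finite F] [CharP F 2] (r j : ℕ) (_ : F ≃+ Bv r),
  LP (tow F j) (540 * r * (j + 1) ^ 2)

/-- R4: from one balanced condition to all even conditions. -/
def R4S : Prop := ∀ (M Λ : Type) [Finite Λ] (T : Tow M Λ) (m : M) (n n' : ℕ) (χ : Λ → Bool),
  (∀ k z, T.mv k m (T.mv k m z) = z) → LP T n → Bal χ → CM T n' m χ → CE T (4 * n + 2 * n') m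

/-- PAR: one parameter groups of moves. -/
def ParS : Prop := ∀ (M Λ G : Type) (T : Tow M Λ) [AddCommGroup G] (r n : ℕ) (_ : G ≃+ Bv r)
  (x : G → M), (∀ k z, T.mv k (x 0) z = z) →
  (∀ k a b z, T.mv k (x (a + b)) z = T.mv k (x a) (T.mv k (x b) z)) → (∀ b, CE T n (x b)) →
  ∀ (c : Λ → G) φ, Fpf φ → (∀ l, c (φ l) = c l) → CW T (r * n) fun l => [x (c l)]

/-- R5: from letters to words. -/
def R5S : Prop := ∀ (M Λ : Type) (T : Tow M Λ) (N n : ℕ),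
  (∀ (μ : Λ → M) φ, Fpf φ → (∀ l, μ (φ l) = μ l) → CW T N fun l => [μ l]) → LP T n →
  T.Route (2000 * N + n)

/-- CEM: every move, every even condition. -/
def CemS : Prop := ∀ (F : Type) [Field F] [Finite F] [CharP F 2] (r j n : ℕ) (_ : F ≃+ Bv r),
  1 ≤ r → 45 * (j + 1) ≤ n → LP (tow F j) n → ∀ m, CE (tow F j) (24 * r * n) m

/-- LET: letters. -/
def LetS : Prop := ∀ (F : Type) [Field F] [Finite F] [CharP F 2] (r j n : ℕ) (_ : F ≃+ Bv r),
  1 ≤ r → (∀ m, CE (tow F j) n m) → ∀ (μ : Lab F j → Mv F) φ, Fpf φ → (∀ l, μ (φ l) = μ l) →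
    CW (tow F j) (8 * r * n) fun l => [μ l]

/-- TRG: clouds over bit vectors. -/
def TrgS : Prop := ∀ (r : ℕ) (V C N B R M : Type) [AddCommGroup B] [AddCommGroup R]
  (G : PGeo r V C N B R M) (_ : V ≃ Bv (6 * r)) (_ : C ≃ Bv (3 * r)) (_ : N ≃ Bv (2 * r))
  (_ : B ≃+ Bv (16 * r)) (_ : R ≃+ Bv (14 * r)),
    ∃ G' : Geo r M, ∀ (Z : Type) (mv : M → Z → Z), G.Ok mv → G'.Ok mv

/-- TRL: renaming the labels. -/
def TrlS : Prop := ∀ (M Λ Λ' : Type) (T : Tow M Λ) (_ : Λ ≃ Λ'), ∃ T' : Tow M Λ',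
  (∀ r (G : Geo r M), (∀ k, G.Ok (T.mv k)) → ∀ k, G.Ok (T'.mv k)) ∧
  (∀ R, T.Route R → T'.Route R) ∧ (T.Tree → T'.Tree)

end Pool.Agent.PP.D
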